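import Pool.Agent.P.MP_a28080_pr.Conv

/-! Spanning trees and parent maps. -/

namespace Pool.Agent.P.MP_a28080_pr

open Finset

variable {V : Type} [DecidableEq V]

open Classical in
/-- neighbours inside `Λ` -/
noncomputable def nbG (G : SimpleGraph V) (Λ : Finset V) (v : V) : Finset V := Λ.filter (G.Adj v)

omit [DecidableEq V] in
lemma mem_nbG {G : SimpleGraph V} {Λ : Finset V} {v x : V} :
    x ∈ nbG G Λ v ↔ x ∈ Λ ∧ G.Adj v x := by simp [nbG]

lemma exists_parent {G T : SimpleGraph V} {Λ : Finset V} {ρ : V} (hρ : ρ ∈ Λ) (hT : T ≤ G)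
    (hc : (T.induce (Λ : Set V)).Connected) :
    ∃ f ∈ For (Λ.erase ρ) (nbG G Λ), ∀ v ∈ Λ.erase ρ, T.Adj v (f v) := by
  let δ : V → ℕ := fun v =>
    if h : v ∈ Λ then (T.induce (Λ : Set V)).dist ⟨v, h⟩ ⟨ρ, hρ⟩ else 0
  have hex : ∀ v, ∃ x, (v ∉ Λ.erase ρ → x = v) ∧
      (v ∈ Λ.erase ρ → x ∈ Λ ∧ T.Adj v x ∧ δ x < δ v) := by
    intro v
    by_cases hv : v ∈ Λ.erase ρ
    · obtain ⟨h1, h2⟩ := mem_erase.mp hv
      obtain ⟨p, hp⟩ := hc.exists_walk_length_eq_dist ⟨v, h2⟩ ⟨ρ, hρ⟩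
      obtain ⟨x, h, p', rfl⟩ := p.exists_eq_cons_of_ne fun h => h1 (congrArg Subtype.val h)
      refine ⟨x.1, fun h => absurd hv h, fun _ => ⟨x.2, h, ?_⟩⟩
      have hx : x.1 ∈ Λ := x.2
      simp only [δ, dif_pos hx, dif_pos h2]
      rw [← hp, SimpleGraph.Walk.length_cons]
      exact Nat.lt_succ_of_le (SimpleGraph.dist_le p')
    · exact ⟨v, fun _ => rfl, fun h => absurd h hv⟩
  choose f hf1 hf2 using hex
  refine ⟨f, mem_For.mpr ⟨hf1, fun v hv => mem_nbG.mpr ⟨(hf2 v hv).1, hT (hf2 v hv).2.1⟩, ?_⟩,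
    fun v hv => (hf2 v hv).2.1⟩
  intro v
  induction h : δ v using Nat.strong_induction_on generalizing v with
  | _ k ih =>
    by_cases hv : v ∈ Λ.erase ρ
    · obtain ⟨n, hn⟩ := ih _ (h ▸ (hf2 v hv).2.2) (f v) rfl
      exact ⟨n + 1, hn⟩
    · exact ⟨0, hv⟩

lemma gr_cases {N : Finset V} {nb : V → Finset V} {f : V → V} (hf : f ∈ For N nb) {a b : V}
    (h : (gr f).Adj a b) : (a ∈ N ∧ f a = b) ∨ (b ∈ N ∧ f b = a) := by
  have h1 := (mem_For.mp hf).1
  obtain ⟨hne, h | h⟩ := gr_adj.mp h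
  · exact Or.inl ⟨by_contra fun ha => hne ((h1 a ha).symm.trans h), h⟩
  · exact Or.inr ⟨by_contra fun hb => hne (h.symm.trans (h1 b hb)), h⟩

lemma gr_step {N : Finset V} {nb : V → Finset V} {f : V → V} (hf : f ∈ For N nb) {v : V}
    (hv : v ∈ N) : (gr f).Adj v (f v) :=
  gr_adj.mpr ⟨fun h => not_periodic hf one_pos h.symm hv, Or.inl rfl⟩

lemma gr_mem {G : SimpleGraph V} {Λ : Finset V} {ρ : V} (hρ : ρ ∈ Λ) {f : V → V}
    (hf : f ∈ For (Λ.erase ρ) (nbG G Λ)) : gr f ∈ spTrees G Λ := by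
  obtain ⟨h1, h2, h3⟩ := mem_For.mp hf
  have hΛ : ∀ v ∈ Λ.erase ρ, f v ∈ Λ := fun v hv => (mem_nbG.mp (h2 v hv)).1
  refine ⟨fun a b h => ?_, ?_, ?_⟩
  · rcases gr_cases hf h with ⟨k, rfl⟩ | ⟨k, rfl⟩
    · exact (mem_nbG.mp (h2 _ k)).2
    · exact (mem_nbG.mp (h2 _ k)).2.symm
  · rintro a ⟨b, h⟩
    rcases gr_cases hf h with ⟨k, rfl⟩ | ⟨k, rfl⟩
    · exact mem_of_mem_erase k
    · exact hΛ _ k
  have hc : ((gr f).induce (Λ : Set V)).Connected := by
    rw [SimpleGraph.connected_iff_exists_forall_reachable]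
    refine ⟨⟨ρ, hρ⟩, fun ⟨v, hv⟩ => SimpleGraph.Reachable.symm ?_⟩
    obtain ⟨n, hn⟩ := h3 v
    induction n generalizing v with
    | zero =>
      obtain rfl : v = ρ := by_contra fun h => hn (mem_erase.mpr ⟨h, hv⟩)
      rfl
    | succ n ih =>
      by_cases h : v ∈ Λ.erase ρ
      · refine SimpleGraph.Reachable.trans (SimpleGraph.Adj.reachable ?_) (ih (f v) (hΛ v h) hn)
        exact gr_step hf h
      · obtain rfl : v = ρ := by_contra fun h' => h (mem_erase.mpr ⟨h', hv⟩)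
        rfl
  rw [SimpleGraph.isTree_iff_connected_and_card]
  refine ⟨hc, le_antisymm ?_ hc.card_vert_le_card_edgeSet_add_one⟩
  have hs : Function.Surjective fun v : Λ.erase ρ =>
      (⟨s(⟨v.1, mem_of_mem_erase v.2⟩, ⟨f v.1, hΛ _ v.2⟩), gr_step hf v.2⟩ :
        ((gr f).induce (Λ : Set V)).edgeSet) := by
    rintro ⟨e, he⟩
    induction e using Sym2.ind with
    | h a b =>
      have he' : (gr f).Adj a.1 b.1 := he
      rcases gr_cases hf he' with ⟨h, h'⟩ | ⟨h, h'⟩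
      · exact ⟨⟨a.1, h⟩, by simp [h']⟩
      · exact ⟨⟨b.1, h⟩, by simp [h']⟩
  refine (Nat.succ_le_succ (Nat.card_le_card_of_surjective _ hs)).trans ?_
  simp only [Nat.card_eq_fintype_card, Fintype.card_coe, card_erase_of_mem hρ,
    coe_sort_coe]
  have := card_pos.mpr ⟨ρ, hρ⟩
  omega

lemma gr_inj {N : Finset V} {nb : V → Finset V} : Set.InjOn gr (For N nb : Set (V → V)) := by
  intro f hf g hg h
  have key : ∀ v, f v ≠ g v → g v ∈ N ∧ f (g v) ≠ g (g v) := by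
    intro v hv
    have hvN : v ∈ N := by_contra fun h' =>
      hv (((mem_For.mp hf).1 v h').trans ((mem_For.mp hg).1 v h').symm)
    rcases gr_cases hf (h ▸ gr_step hg hvN) with ⟨-, h'⟩ | ⟨h1, h2⟩
    · exact absurd h' hv
    · refine ⟨h1, fun h3 => not_periodic hg two_pos ?_ hvN⟩
      exact h3.symm.trans h2
  funext v
  by_contra hv
  have : ∀ n, f (g^[n] v) ≠ g (g^[n] v) := by
    intro n
    induction n with
    | zero => exact hv
    | succ n ih => rw [Function.iterate_succ_apply']; exact (key _ ih).2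
  obtain ⟨n, hn⟩ := (mem_For.mp hg).2.2 v
  exact this n (((mem_For.mp hf).1 _ hn).trans ((mem_For.mp hg).1 _ hn).symm)

lemma gr_surj {G T : SimpleGraph V} {Λ : Finset V} {ρ : V} (hρ : ρ ∈ Λ) (hT : T ∈ spTrees G Λ) :
    ∃ f ∈ For (Λ.erase ρ) (nbG G Λ), gr f = T := by
  obtain ⟨h1, h2, h3⟩ := hT
  obtain ⟨f, hf, hf2⟩ := exists_parent hρ h1 h3.connected
  have hle : gr f ≤ T := by
    intro a b h
    rcases gr_cases hf h with ⟨k, rfl⟩ | ⟨k, rfl⟩
    · exact hf2 _ k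
    · exact (hf2 _ k).symm
  refine ⟨f, hf, le_antisymm hle fun a b h => ?_⟩
  have := (SimpleGraph.isTree_iff_minimal_connected.mp h3).2 (gr_mem hρ hf).2.2.connected
    fun _ _ h => hle h
  exact @this ⟨a, h2 ⟨b, h⟩⟩ ⟨b, h2 ⟨a, h.symm⟩⟩ h

lemma ncard_trees (G : SimpleGraph V) {Λ : Finset V} {ρ : V} (hρ : ρ ∈ Λ)
    (E : Set (SimpleGraph V)) :
    ((spTrees G Λ ∩ E).ncard : ℝ) = nf (For (Λ.erase ρ) (nbG G Λ)) fun f => gr f ∈ E := by
  classical
  have e : spTrees G Λ ∩ E =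
      gr '' (((For (Λ.erase ρ) (nbG G Λ)).filter fun f => gr f ∈ E : Finset _) : Set _) := by
    ext T
    simp only [Set.mem_inter_iff, coe_filter, Set.mem_image, Set.mem_ofPred_eq]
    constructor
    · rintro ⟨h1, h2⟩
      obtain ⟨f, hf, rfl⟩ := gr_surj hρ h1
      exact ⟨f, ⟨hf, h2⟩, rfl⟩
    · rintro ⟨f, ⟨hf, h2⟩, rfl⟩
      exact ⟨gr_mem hρ hf, h2⟩
  rw [e, (gr_inj.mono (coe_subset.mpr (filter_subset _ _))).ncard_image, Set.ncard_coe_finset,
    nf_eq]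

lemma ustProb_eq (G : SimpleGraph V) {Λ : Finset V} {ρ : V} (hρ : ρ ∈ Λ)
    (E : Set (SimpleGraph V)) : ustProb G Λ E =
    nf (For (Λ.erase ρ) (nbG G Λ)) (fun f => gr f ∈ E) / (For (Λ.erase ρ) (nbG G Λ)).card := by
  have := ncard_trees G hρ Set.univ
  rw [Set.inter_univ] at this
  rw [ustProb, ncard_trees G hρ, this]
  simp [nf_true]

open Filter

variable {d : ℕ} [NeZero d]

lemma adm_free {Λ : ℕ → Finset (BCC d)} (h : Exhaustion (bccG d) Λ) :
    ∃ ρ : ℕ → BCC d, (∀ n, ρ n ∈ Λ n) ∧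
      Adm (fun n => (Λ n).erase (ρ n)) fun n => nbG (bccG d) (Λ n) := by
  obtain ⟨h1, h2, h3⟩ := h
  have hne : ∀ n, (Λ n).Nonempty := fun n => by
    obtain ⟨v, hv⟩ := (h3 n).nonempty
    exact ⟨v, hv⟩
  choose ρ hρ hmax using fun n => exists_max_image (Λ n) (fun v => v.1 0) (hne n)
  have hK : ∀ K : Finset (BCC d), ∀ᶠ n in atTop, ∀ v ∈ K, v ∈ Λ n := by
    intro K
    rw [eventually_all_finset]
    intro v _
    obtain ⟨n, hn⟩ := h2 v
    exact eventually_atTop.mpr ⟨n, fun m hm => h1 hm hn⟩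
  refine ⟨ρ, hρ, fun n => ?_, fun n v hv z _ hz => ?_, fun n v z hz => (mem_nbG.mp hz).2,
    fun K => ?_⟩
  · obtain ⟨f, hf, -⟩ := exists_parent (hρ n) le_rfl (h3 n)
    exact ⟨f, hf⟩
  · exact mem_nbG.mpr ⟨mem_of_mem_erase hv, (mem_nbG.mp hz).2.symm⟩
  · filter_upwards [hK K, hK (K.biUnion nbL)] with n k1 k2 v hv
    have k3 : ∀ z ∈ nbL v, z ∈ Λ n := fun z hz => k2 z (mem_biUnion.mpr ⟨v, hv, hz⟩)
    refine ⟨mem_erase.mpr ⟨?_, k1 v hv⟩, ?_⟩
    · rintro rfl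
      have := hmax n _ (k3 _ (add_st_mem _ fun _ => true))
      simp [st_val] at this
    · ext z
      rw [mem_nbG]
      exact ⟨fun h => h.2, fun h => ⟨k3 z h, h⟩⟩

lemma wired_ne (N : Finset (BCC d)) : (For N nbL).Nonempty := by
  refine ⟨fun v => if v ∈ N then v + st fun _ => true else v, mem_For.mpr
    ⟨fun v hv => if_neg hv, fun v hv => by rw [if_pos hv]; exact add_st_mem _ _, fun v => ?_⟩⟩
  by_contra hc
  simp only [not_exists, not_not] at hc
  have key : ∀ n : ℕ, ((fun v => if v ∈ N then v + st fun _ => true else v)^[n] v).1 0 =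
      v.1 0 + n := by
    intro n
    induction n with
    | zero => simp
    | succ n ih =>
      rw [Function.iterate_succ_apply', if_pos (hc n)]
      simp [ih, st_val, add_assoc]
  refine N.finite_toSet.not_infinite (Set.infinite_of_injective_forall_mem (fun m n h => ?_) hc)
  have := key m
  rw [h, key n] at this
  omega

lemma adm_wired : Adm (box (0 : BCC d)) fun _ => nbL := by
  refine ⟨fun n => wired_ne _, fun n v _ z _ h => nbL_symm _ _ h, fun _ _ => Subset.refl _,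
    fun K => ?_⟩
  rw [eventually_all_finset]
  intro v _
  obtain ⟨n, hn⟩ := exists_near 0 v
  exact eventually_atTop.mpr ⟨n, fun m hm => ⟨mem_box.mpr (hn.mono hm), rfl⟩⟩

end Pool.Agent.P.MP_a28080_pr
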