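import Pool.Agent.P.MP_a28080_pr.Markov

/-! Bounds for pairs joined in distinct components. -/

namespace Pool.Agent.P.MP_a28080_pr

open Finset

variable {V : Type*}

/-- the orbits meet -/
def Meet (f : V → V) (u v : V) : Prop := ∃ m n, f^[m] u = f^[n] v

lemma Meet.refl (f : V → V) (u : V) : Meet f u u := ⟨0, 0, rfl⟩

lemma Meet.symm {f : V → V} {u v : V} (h : Meet f u v) : Meet f v u := by
  obtain ⟨m, n, h⟩ := h
  exact ⟨n, m, h.symm⟩

lemma Meet.trans {f : V → V} {u v w : V} (h : Meet f u v) (h' : Meet f v w) : Meet f u w := by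
  obtain ⟨m, n, h⟩ := h
  obtain ⟨m', n', h'⟩ := h'
  refine ⟨m' + m, n + n', ?_⟩
  rw [Function.iterate_add_apply, h, ← Function.iterate_add_apply, add_comm,
    Function.iterate_add_apply, h', ← Function.iterate_add_apply]

lemma meet_iter (f : V → V) (u : V) (n : ℕ) : Meet f u (f^[n] u) := ⟨n, 0, rfl⟩

lemma meet_step (f : V → V) (u : V) : Meet f u (f u) := ⟨1, 0, rfl⟩

/-- `u` and `v` are joined in a component that misses `A` -/
def Q (A : Finset V) (u v : V) (f : V → V) : Prop := Meet f u v ∧ ∀ x ∈ A, ¬ Meet f x u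

lemma Det.mono {A A' : Finset V} {E : (V → V) → Prop} (h : Det A E) (hA : A ⊆ A') : Det A' E :=
  fun f g hs => h f g fun x hx => hs x (hA hx)

lemma Det.and {A : Finset V} {E E' : (V → V) → Prop} (h : Det A E) (h' : Det A E') :
    Det A fun f => E f ∧ E' f := fun f g hs hf => ⟨h f g hs hf.1, h' f g hs hf.2⟩

lemma det_hit {A A' : Finset V} (N : Finset V) {u : V} (w : V) (hA : A ⊆ A') (hu : u ∈ A') :
    Det A' (Hit N A u w) := by
  rintro f g hs ⟨k, hk, hk2⟩
  refine ⟨k, by rw [← hs u hu, hk], fun m hm => ?_⟩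
  rw [← hs u hu]
  refine ⟨(hk2 m hm).1, ?_⟩
  rintro ⟨x, hx, n, hn⟩
  exact (hk2 m hm).2 ⟨x, hx, n, by rw [hs x (hA hx), hn]⟩

lemma det_Q {A A' : Finset V} {u v : V} (hA : A ⊆ A') (hu : u ∈ A') (hv : v ∈ A') :
    Det A' (Q A u v) := by
  rintro f g hs ⟨⟨m, n, h⟩, h2⟩
  refine ⟨⟨m, n, by rw [← hs u hu, ← hs v hv, h]⟩, ?_⟩
  rintro x hx ⟨m, n, h⟩
  exact h2 x hx ⟨m, n, by rw [hs x (hA hx), hs u hu, h]⟩

variable [DecidableEq V]

lemma iter_mem {N W : Finset V} {nb : V → Finset V} (hW : ∀ x ∈ N, nb x ⊆ W) {f : V → V}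
    (hf : f ∈ For N nb) {v : V} (hv : v ∈ W) (n : ℕ) : f^[n] v ∈ W := by
  induction n with
  | zero => exact hv
  | succ n ih =>
    rw [Function.iterate_succ_apply']
    by_cases h : f^[n] v ∈ N
    · exact hW _ h ((mem_For.mp hf).2.1 _ h)
    · rwa [(mem_For.mp hf).1 _ h]

lemma not_periodic {N : Finset V} {nb : V → Finset V} {f : V → V} (hf : f ∈ For N nb) {w : V}
    {k : ℕ} (hk : 0 < k) (h : f^[k] w = w) : w ∉ N := by
  intro hw
  obtain ⟨h1, -, h3⟩ := mem_For.mp hf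
  obtain ⟨n, hn⟩ := h3 w
  have e : f^[k * n] w = w := by
    rw [Function.iterate_mul]; exact Function.iterate_fixed h n
  obtain ⟨j, hj⟩ := Nat.exists_eq_add_of_le (Nat.le_mul_of_pos_left n hk)
  rw [hj, add_comm, Function.iterate_add_apply, iter_fix h1 hn] at e
  exact hn (e.symm ▸ hw)

lemma Q_hits {N : Finset V} {nb : V → Finset V} {f : V → V} (hf : f ∈ For N nb) {A : Finset V}
    {u v : V} (h : Q A u v f) : ∃ n, Hit N (insert (f^[n] v) A) u (f^[n] v) f ∧
      Hit N (insert u (insert (f^[n] v) A)) v (f^[n] v) f := by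
  classical
  obtain ⟨h1, -, -⟩ := mem_For.mp hf
  obtain ⟨hm, hA⟩ := h
  have hex : ∃ n, ∃ m, f^[m] u = f^[n] v := by
    obtain ⟨m, n, h⟩ := hm
    exact ⟨n, m, h⟩
  have hn := Nat.find_spec hex
  refine ⟨Nat.find hex, ⟨Nat.find hn, Nat.find_spec hn, fun m hm' => ?_⟩, Nat.find hex, rfl,
    fun m hm' => ?_⟩
  · obtain ⟨j, hj⟩ := Nat.exists_eq_add_of_lt hm'
    have e : f^[j + 1] (f^[m] u) = f^[Nat.find hex] v := by
      rw [← Function.iterate_add_apply, ← Nat.find_spec hn, hj]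
      congr 1; omega
    have hN : f^[m] u ∈ N := by
      by_contra hc
      rw [iter_fix h1 hc] at e
      exact Nat.find_min hn hm' e
    refine ⟨hN, ?_⟩
    rintro ⟨x, hx, i, hi⟩
    rcases mem_insert.mp hx with rfl | hx
    · refine not_periodic hf (k := i + (j + 1)) (by omega) ?_ hN
      rw [Function.iterate_add_apply, e, hi]
    · exact hA x hx ⟨i, m, hi⟩
  · obtain ⟨j, hj⟩ := Nat.exists_eq_add_of_lt hm'
    have e : f^[j + 1] (f^[m] v) = f^[Nat.find hex] v := by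
      rw [← Function.iterate_add_apply, hj]
      congr 1; omega
    have hno := Nat.find_min hex hm'
    refine ⟨?_, ?_⟩
    · by_contra hc
      rw [iter_fix h1 hc] at e
      exact hno (e ▸ hn)
    · rintro ⟨x, hx, i, hi⟩
      rcases mem_insert.mp hx with rfl | hx
      · exact hno ⟨i, hi⟩
      rcases mem_insert.mp hx with rfl | hx
      · exact hno ⟨i + Nat.find hn, by rw [Function.iterate_add_apply, Nat.find_spec hn, hi]⟩
      · exact hA x hx (Meet.trans ⟨i, m, hi⟩ hm.symm)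

lemma pair_bound {N W : Finset V} {nb : V → Finset V} (hW : ∀ x ∈ N, nb x ⊆ W)
    (Φ : V → V → ℝ) (h0 : ∀ x w, 0 ≤ Φ x w) (h1 : ∀ w, 1 ≤ Φ w w)
    (hsup : ∀ w v, 0 ≤ ∑ x ∈ nb v, (Φ v w - Φ x w)) {A : Finset V} {u v : V} (hv : v ∈ W)
    {E : (V → V) → Prop} (hE : Det A E) :
    nf (For N nb) (fun f => E f ∧ Q A u v f) ≤
      (∑ w ∈ W, Φ u w * Φ v w) * nf (For N nb) E := by
  refine le_trans (nf_mono ?_) ((nf_exists_le _ W fun w f => (E f ∧ Hit N (insert w A) u w f) ∧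
        Hit N (insert u (insert w A)) v w f).trans ?_)
  · rintro f hf ⟨hEf, hQ⟩
    obtain ⟨n, hn1, hn2⟩ := Q_hits hf hQ
    exact ⟨_, iter_mem hW hf hv n, ⟨hEf, hn1⟩, hn2⟩
  rw [sum_mul]
  refine sum_le_sum fun w _ => ?_
  have s1 := step_bound (N := N) (nb := nb) (A := insert u (insert w A)) (u := v) (w := w)
    (by simp) (fun x => Φ x w) (fun x => h0 x w) (h1 w) (hsup w)
    (E := fun f => E f ∧ Hit N (insert w A) u w f)
    ((hE.mono ((subset_insert _ _).trans (subset_insert _ _))).and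
      (det_hit N w (subset_insert _ _) (mem_insert_self _ _)))
  have s2 := step_bound (N := N) (nb := nb) (A := insert w A) (u := u) (w := w)
    (by simp) (fun x => Φ x w) (fun x => h0 x w) (h1 w) (hsup w) (hE.mono (subset_insert _ _))
  calc _ ≤ Φ v w * _ := s1
    _ ≤ Φ v w * (Φ u w * nf (For N nb) E) := mul_le_mul_of_nonneg_left s2 (h0 v w)
    _ = _ := by ring

/-- chains of at most three components from `q` to `q'` -/
def Chain (nb : V → Finset V) (q q' : V) (f : V → V) : Prop :=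
  Meet f q q' ∨ (∃ a, ∃ b ∈ nb a, Meet f q a ∧ Meet f b q') ∨
    ∃ a, ∃ u ∈ nb a, ∃ b, ∃ v ∈ nb b, Meet f q a ∧ Meet f u v ∧ Meet f b q'

lemma meet_mem {N W : Finset V} {nb : V → Finset V} (hN : N ⊆ W) (hW : ∀ x ∈ N, nb x ⊆ W)
    {f : V → V} (hf : f ∈ For N nb) {q a : V} (hq : q ∈ W) (h : Meet f q a) : a ∈ W := by
  by_cases ha : a ∈ N
  · exact hN ha
  · obtain ⟨m, n, h⟩ := h
    rw [iter_fix (mem_For.mp hf).1 ha] at h
    exact h ▸ iter_mem hW hf hq m

lemma chain_bound {N W : Finset V} {nb : V → Finset V} (hN : N ⊆ W) (hW : ∀ x ∈ N, nb x ⊆ W)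
    (hsym : ∀ x y, x ∈ nb y → y ∈ nb x)
    (Φ : V → V → ℝ) (h0 : ∀ x w, 0 ≤ Φ x w) (h1 : ∀ w, 1 ≤ Φ w w)
    (hsup : ∀ w v, 0 ≤ ∑ x ∈ nb v, (Φ v w - Φ x w)) (H : V → V → ℝ)
    (hH : ∀ (W : Finset V) x y, ∑ w ∈ W, Φ x w * Φ y w ≤ H x y) {q q' : V} (hq : q ∈ W)
    (hq' : q' ∈ W) :
    nf (For N nb) (Chain nb q q') ≤
      (H q q' + (∑ a ∈ W, ∑ b ∈ nb a, H q a * H b q' +
        ∑ a ∈ W, ∑ u ∈ nb a, ∑ b ∈ W, ∑ v ∈ nb b, H q a * H b q' * H u v)) *
        (For N nb).card := by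
  have H0 : ∀ x y, 0 ≤ H x y := fun x y => by simpa using hH ∅ x y
  have pb : ∀ (A : Finset V) (u v : V) (E : (V → V) → Prop), Det A E →
      nf (For N nb) (fun f => E f ∧ Q A u v f) ≤ H u v * nf (For N nb) E := by
    intro A u v E hE
    refine (pair_bound (W := insert v (N.biUnion nb)) (fun x hx => ?_) Φ h0 h1 hsup
      (mem_insert_self _ _) hE).trans (mul_le_mul_of_nonneg_right (hH _ _ _) (nf_nonneg _ _))
    exact (subset_biUnion_of_mem nb hx).trans (subset_insert _ _)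
  let E1 : V → (V → V) → Prop := fun a f => True ∧ Q ∅ q a f
  let E2 : V → V → (V → V) → Prop := fun a b f => E1 a f ∧ Q {q, a} b q' f
  let E3 : V → V → V → V → (V → V) → Prop := fun a b u v f => E2 a b f ∧ Q {b, q', q, a} u v f
  have d1 : ∀ a, Det {q, a} (E1 a) := fun a =>
    Det.and (fun _ _ _ h => h) (det_Q (by simp) (by simp) (by simp))
  have d2 : ∀ a b, Det {b, q', q, a} (E2 a b) := fun a b =>
    Det.and ((d1 a).mono (by intro x; simp; tauto))
      (det_Q (by intro x; simp; tauto) (by simp) (by simp))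
  have b1 : ∀ a, nf (For N nb) (E1 a) ≤ H q a * (For N nb).card := by
    intro a
    have := pb ∅ q a (fun _ => True) (fun _ _ _ h => h)
    rwa [nf_true] at this
  have b2 : ∀ a b, nf (For N nb) (E2 a b) ≤ H q a * H b q' * (For N nb).card := by
    intro a b
    calc _ ≤ H b q' * nf (For N nb) (E1 a) := pb _ b q' _ (d1 a)
      _ ≤ H b q' * (H q a * (For N nb).card) := mul_le_mul_of_nonneg_left (b1 a) (H0 _ _)
      _ = _ := by ring
  have b3 : ∀ a b u v, nf (For N nb) (E3 a b u v) ≤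
      H q a * H b q' * H u v * (For N nb).card := by
    intro a b u v
    calc _ ≤ H u v * nf (For N nb) (E2 a b) := pb _ u v _ (d2 a b)
      _ ≤ H u v * (H q a * H b q' * (For N nb).card) :=
        mul_le_mul_of_nonneg_left (b2 a b) (H0 _ _)
      _ = _ := by ring
  have hsub : ∀ f ∈ For N nb, Chain nb q q' f → E1 q' f ∨
      ((∃ a ∈ W, ∃ b ∈ nb a, E2 a b f) ∨
      ∃ a ∈ W, ∃ u ∈ nb a, ∃ b ∈ W, ∃ v ∈ nb b, E3 a b u v f) := by
    intro f hf hc
    by_cases c1 : Meet f q q'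
    · exact Or.inl ⟨trivial, c1, by simp⟩
    by_cases c2 : ∃ a, ∃ b ∈ nb a, Meet f q a ∧ Meet f b q'
    · obtain ⟨a, b, hb, m1, m2⟩ := c2
      refine Or.inr (Or.inl ⟨a, meet_mem hN hW hf hq m1, b, hb, ⟨trivial, m1, by simp⟩, m2, ?_⟩)
      intro x hx hm
      simp only [mem_insert, mem_singleton] at hx
      rcases hx with rfl | rfl
      · exact c1 (hm.trans m2)
      · exact c1 (m1.trans (hm.trans m2))
    rcases hc with hc | hc | ⟨a, u, hu, b, v, hv, m1, m2, m3⟩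
    · exact absurd hc c1
    · exact absurd hc c2
    refine Or.inr (Or.inr ⟨a, meet_mem hN hW hf hq m1, u, hu, b, meet_mem hN hW hf hq' m3.symm,
      v, hv, ⟨⟨trivial, m1, by simp⟩, m3, ?_⟩, m2, ?_⟩)
    · intro x hx hm
      simp only [mem_insert, mem_singleton] at hx
      rcases hx with rfl | rfl
      · exact c1 (hm.trans m3)
      · exact c1 (m1.trans (hm.trans m3))
    · intro x hx hm
      simp only [mem_insert, mem_singleton] at hx
      rcases hx with rfl | rfl | rfl | rfl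
      · exact c2 ⟨a, u, hu, m1, hm.symm.trans m3⟩
      · exact c2 ⟨a, u, hu, m1, hm.symm⟩
      · exact c2 ⟨v, b, hsym _ _ hv, hm.trans m2, m3⟩
      · exact c2 ⟨v, b, hsym _ _ hv, m1.trans (hm.trans m2), m3⟩
  refine (nf_mono hsub).trans ((nf_or_le _ _ _).trans ?_)
  simp only [add_mul, sum_mul]
  refine add_le_add (b1 q') ((nf_or_le _ _ _).trans (add_le_add ?_ ?_))
  · exact (nf_exists_le _ _ _).trans (sum_le_sum fun a _ => (nf_exists_le _ _ _).trans
      (sum_le_sum fun b _ => b2 a b))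
  · exact (nf_exists_le _ _ _).trans (sum_le_sum fun a _ => (nf_exists_le _ _ _).trans
      (sum_le_sum fun u _ => (nf_exists_le _ _ _).trans (sum_le_sum fun b _ =>
        (nf_exists_le _ _ _).trans (sum_le_sum fun v _ => b3 a b u v))))

end Pool.Agent.P.MP_a28080_pr
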