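import Pool.Agent.P.MP_a28080_pr.Lattice

/-! Geometry of the arms used in the surgery. -/

namespace Pool.Agent.P.MP_a28080_pr

open Finset

variable {d : ℕ}

/-- one coordinate of a left arm -/
def cf (K : ℕ) (b : Bool) (i : ℤ) : ℤ :=
  if b then (if i ≤ K + 1 then 1 - i else i - 2 * K - 1) else -i - 1

lemma cf_false (K : ℕ) (i : ℤ) : cf K false i = -i - 1 := rfl

lemma cf_true (K : ℕ) (i : ℤ) : (i ≤ K + 1 ∧ cf K true i = 1 - i) ∨
    (K + 1 < i ∧ cf K true i = i - 2 * K - 1) := by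
  simp only [cf, if_true]
  split_ifs <;> omega

/-- the arms -/
def arm (K : ℕ) (s : Bool) (ε : Fin d → Bool) (i : ℤ) : BCC d :=
  ⟨fun k => if s then 1 - cf K (ε k) i else cf K (ε k) i, fun k k' => by
    have := cf_true K i
    have := cf_false K i
    cases s <;> cases h : ε k <;> cases h' : ε k' <;> simp only [h, h'] <;> simp <;> omega⟩

lemma arm_false (K : ℕ) (ε : Fin d → Bool) (i : ℤ) (k : Fin d) :
    (arm K false ε i).1 k = cf K (ε k) i := rfl

lemma arm_true (K : ℕ) (ε : Fin d → Bool) (i : ℤ) (k : Fin d) :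
    (arm K true ε i).1 k = 1 - cf K (ε k) i := rfl

/-- valid positions -/
def valid (K : ℕ) (ε : Fin d → Bool) (i : ℤ) : Prop :=
  (∃ k, ε k = false) ∧ (0 ≤ i ∨ (i = -1 ∧ ∀ k, ε k = false)) ∧ i ≤ 2 * K + 2

lemma valid.coord {K : ℕ} {ε : Fin d → Bool} {i : ℤ} (h : valid K ε i) (k : Fin d) :
    -1 ≤ i ∧ i ≤ 2 * K + 2 ∧ ((ε k = false ∧ cf K (ε k) i = -i - 1) ∨
      (ε k = true ∧ 0 ≤ i ∧ ((i ≤ K + 1 ∧ cf K (ε k) i = 1 - i) ∨
        (K + 1 < i ∧ cf K (ε k) i = i - 2 * K - 1)))) := by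
  obtain ⟨-, h2, h3⟩ := h
  refine ⟨by omega, h3, ?_⟩
  cases hk : ε k
  · exact Or.inl ⟨rfl, rfl⟩
  · refine Or.inr ⟨rfl, ?_, cf_true K i⟩
    rcases h2 with h | ⟨-, h⟩
    · exact h
    · rw [h k] at hk; cases hk

lemma valid.top {K : ℕ} {ε : Fin d → Bool} {i : ℤ} (h : valid K ε i) : valid K ε (2 * K + 2) :=
  ⟨h.1, Or.inl (by omega), le_rfl⟩

lemma valid.succ {K : ℕ} {ε : Fin d → Bool} {i : ℤ} (h : valid K ε i) (hi : i < 2 * K + 2) :
    valid K ε (i + 1) := ⟨h.1, Or.inl (by have := h.2.1; omega), hi⟩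

lemma arm_inj {K : ℕ} {s s' : Bool} {ε ε' : Fin d → Bool} {i i' : ℤ} (h : valid K ε i)
    (h' : valid K ε' i') (e : arm K s ε i = arm K s' ε' i') : s = s' ∧ ε = ε' ∧ i = i' := by
  obtain ⟨k, hk⟩ := h.1
  obtain ⟨k', hk'⟩ := h'.1
  have E : ∀ k, (arm K s ε i).1 k = (arm K s' ε' i').1 k := fun k => by rw [e]
  have c1 := h.coord k
  have c2 := h.coord k'
  have c3 := h'.coord k
  have c4 := h'.coord k'
  have e1 := E k
  have e2 := E k'
  simp only [hk, hk', Bool.false_eq_true, false_and, or_false, true_and] at c1 c4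
  have key : s = s' ∧ i = i' := by
    cases s <;> cases s' <;> simp only [arm_false, arm_true, hk, hk'] at e1 e2 <;>
      simp only [Bool.false_eq_true, Bool.true_eq_false, false_and, true_and] <;> omega
  obtain ⟨rfl, rfl⟩ := key
  refine ⟨rfl, funext fun j => ?_, rfl⟩
  have c5 := h.coord j
  have c6 := h'.coord j
  have e3 := E j
  cases h1 : ε j <;> cases h2 : ε' j <;> cases s <;>
    simp only [arm_false, arm_true, h1, h2, Bool.false_eq_true, Bool.true_eq_false, false_and,
      true_and, or_false, false_or] at e3 c5 c6 ⊢ <;> omega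

lemma arm_nb (K : ℕ) (s : Bool) (ε : Fin d → Bool) (i : ℤ) :
    arm K s ε (i + 1) ∈ nbL (arm K s ε i) := by
  rw [mem_nbL]
  intro k
  have := cf_true K i
  have := cf_true K (i + 1)
  cases s <;> cases h : ε k <;> simp only [arm_false, arm_true, h, cf_false] <;> omega

lemma anchor_far {K : ℕ} {s s' : Bool} {ε ε' : Fin d → Bool} {i' : ℤ}
    (h : valid K ε (2 * K + 2)) (h' : valid K ε' i')
    (e : near K (arm K s ε (2 * K + 2)) (arm K s' ε' i')) : s = s' ∧ ε = ε' ∧ K + 1 < i' := by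
  obtain ⟨k, hk⟩ := h.1
  have c1 := h.coord k
  have c3 := h'.coord k
  have e1 := e k
  simp only [hk, Bool.false_eq_true, false_and, or_false, true_and] at c1
  have key : s = s' ∧ K + 1 < i' := by
    cases s <;> cases s' <;> simp only [arm_false, arm_true, hk] at e1 <;>
      simp only [Bool.false_eq_true, Bool.true_eq_false, false_and, true_and] <;> omega
  obtain ⟨rfl, hi⟩ := key
  refine ⟨rfl, funext fun j => ?_, hi⟩
  have c5 := h.coord j
  have c6 := h'.coord j
  have e3 := e j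
  cases h1 : ε j <;> cases h2 : ε' j <;> cases s <;>
    simp only [arm_false, arm_true, h1, h2, Bool.false_eq_true, Bool.true_eq_false, false_and,
      true_and, or_false, false_or] at e3 c5 c6 ⊢ <;> omega

lemma cross_far {K : ℕ} {s : Bool} {ε : Fin d → Bool} {i i' : ℤ} (h : valid K ε i)
    (hi : K < i') : ¬ near K (arm K s ε i) (arm K (!s) (fun _ => false) i') := by
  intro e
  obtain ⟨k, hk⟩ := h.1
  have c1 := h.coord k
  have e1 := e k
  cases s <;> simp only [Bool.not_false, Bool.not_true, arm_false, arm_true, hk, cf_false] at e1 <;>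
    omega

variable [NeZero d]

lemma valid_c {K : ℕ} {i : ℤ} (h1 : -1 ≤ i) (h2 : i ≤ 2 * K + 2) :
    valid K (fun _ : Fin d => false) i :=
  ⟨⟨0, rfl⟩, by by_cases h : 0 ≤ i; exact Or.inl h; exact Or.inr ⟨by omega, fun _ => rfl⟩, h2⟩

lemma nb_central {K : ℕ} {s : Bool} {i : ℤ} (h1 : -1 ≤ i) (h2 : i ≤ K) {x : BCC d}
    (hx : x ∈ nbL (arm K s (fun _ => false) i)) :
    (∃ ε i', valid K ε i' ∧ i' ≤ K + 1 ∧ x = arm K s ε i') ∨
      (i = -1 ∧ x = arm K (!s) (fun _ => false) (-1)) := by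
  rw [mem_nbL] at hx
  let ε : Fin d → Bool := fun k => decide (x.1 k = if s then 1 + i else -i)
  by_cases hε : ∃ k, ε k = false
  · refine Or.inl ⟨ε, i + 1, ⟨hε, Or.inl (by omega), by omega⟩, by omega, ?_⟩
    ext k
    have := hx k
    have := cf_true K (i + 1)
    by_cases h : x.1 k = if s then 1 + i else -i
    · have h3 : ε k = true := decide_eq_true h
      cases s <;> simp only [arm_false, arm_true, h3] at * <;> simp at h <;> omega
    · have h3 : ε k = false := decide_eq_false h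
      cases s <;> simp only [arm_false, arm_true, h3, cf_false] at * <;> simp at h <;> omega
  · have h3 : ∀ k, x.1 k = if s then 1 + i else -i := by
      intro k
      by_contra h
      exact hε ⟨k, decide_eq_false h⟩
    by_cases hi : i = -1
    · refine Or.inr ⟨hi, ?_⟩
      ext k
      rw [h3, hi]
      cases s <;> rfl
    · refine Or.inl ⟨fun _ => false, i - 1, valid_c (by omega) (by omega), by omega, ?_⟩
      ext k
      rw [h3]
      cases s <;> simp [arm_false, arm_true, cf_false]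

end Pool.Agent.P.MP_a28080_pr
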