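import Pool.Agent.P.MP_a28080_pr.Defs

/-! The separating sentence. -/

namespace Pool.Agent.P.MP_a28080_pr

open FirstOrder FirstOrder.Language

/-- adjacency of two bound variables -/
def adjF {n : ℕ} (i j : Fin n) : Language.graph.BoundedFormula Empty n :=
  Language.adj.boundedFormula₂ (Term.var (Sum.inr i)) (Term.var (Sum.inr j))

/-- equality of two bound variables -/
def eqF {n : ℕ} (i j : Fin n) : Language.graph.BoundedFormula Empty n :=
  Term.bdEqual (Term.var (Sum.inr i)) (Term.var (Sum.inr j))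

/-- an edge on a four cycle whose ends have no common neighbour -/
def psi : Language.graph.Sentence :=
  (BoundedFormula.ex (n := 0) (BoundedFormula.ex (BoundedFormula.ex (BoundedFormula.ex
    (adjF (0 : Fin 4) 1 ⊓ adjF 0 2 ⊓ adjF 2 3 ⊓ adjF 3 1 ⊓ (eqF 2 1).not ⊓ (eqF 3 0).not ⊓
      BoundedFormula.all (adjF (4 : Fin 5) 0 ⊓ adjF 4 1).not)))))

lemma sat_psi {W : Type} (H : SimpleGraph W) : Sat H psi ↔ ∃ x y z z', H.Adj x y ∧ H.Adj x z ∧
    H.Adj z z' ∧ H.Adj z' y ∧ z ≠ y ∧ z' ≠ x ∧ ∀ w, ¬ (H.Adj w x ∧ H.Adj w y) := by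
  let _ := H.structure
  simp only [Sat, psi, Sentence.Realize, Formula.Realize, BoundedFormula.realize_ex,
    BoundedFormula.realize_inf, BoundedFormula.realize_not, BoundedFormula.realize_all, adjF, eqF,
    BoundedFormula.realize_rel₂, BoundedFormula.realize_bdEqual, Term.realize_var, Sum.elim_inr,
    and_assoc]
  rfl

end Pool.Agent.P.MP_a28080_pr
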