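import Pool.Agent.P.MP_a28080_pr.Lattice
import Pool.Agent.P.MP_a28080_pr.Psi

/-! The sentence fails in the component graph with `r = 2` of every subgraph. -/

namespace Pool.Agent.P.MP_a28080_pr

open Finset

variable {d : ℕ}

/-- king moves -/
def king (a b : Fin d → ℤ) : Prop := ∀ j, (b j - a j).natAbs ≤ 1

/-- projection to a cube -/
def clamp (m : ℕ) (a : Fin d → ℤ) : Fin d → ℤ := fun j => max (-(m : ℤ)) (min (m : ℤ) (a j))

lemma potential (F : (Fin d → ℤ) → (Fin d → ℤ) → ZMod 2)
    (hF : ∀ a b c, king a b → king b c → king a c → F a c = F a b + F b c) :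
    ∃ g : (Fin d → ℤ) → ZMod 2, ∀ a b, king a b → F a b = g a + g b := by
  have kr : ∀ a : Fin d → ℤ, king a a := fun a j => by simp
  have h0 : ∀ a, F a a = 0 := fun a => by
    have := hF a a a (kr a) (kr a) (kr a)
    simpa using this
  have two : ∀ x : ZMod 2, x + x = 0 := by decide
  let G : ℕ → (Fin d → ℤ) → ZMod 2 := fun m a => ∑ i ∈ range m, F (clamp i a) (clamp (i + 1) a)
  have key : ∀ m a b, king a b → F (clamp m a) (clamp m b) = G m a + G m b := by
    intro m a b hab
    induction m with
    | zero =>
      have : clamp 0 a = clamp 0 b := by funext j; simp only [clamp]; omega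
      simp [G, this, h0]
    | succ m ih =>
      have k1 : king (clamp m a) (clamp (m + 1) a) := fun j => by
        simp only [clamp]; omega
      have k2 : king (clamp m b) (clamp (m + 1) b) := fun j => by
        simp only [clamp]; omega
      have k3 : king (clamp m a) (clamp m b) := fun j => by
        have := hab j; simp only [clamp]; omega
      have k4 : king (clamp (m + 1) a) (clamp (m + 1) b) := fun j => by
        have := hab j; simp only [clamp]; omega
      have k5 : king (clamp m a) (clamp (m + 1) b) := fun j => by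
        have := hab j; simp only [clamp]; omega
      have e1 := hF _ _ _ k1 k4 k5
      have e2 := hF _ _ _ k3 k2 k5
      simp only [G, sum_range_succ] at ih ⊢
      linear_combination e2 - e1 + ih - two (F (clamp m a) (clamp (m + 1) a))
  let s : (Fin d → ℤ) → ℕ := fun a => univ.sup fun j => (a j).natAbs
  have hc : ∀ a m, s a ≤ m → clamp m a = a := by
    intro a m h
    funext j
    have : (a j).natAbs ≤ s a := le_sup (f := fun j => (a j).natAbs) (mem_univ j)
    simp only [clamp]; omega
  have hG : ∀ a m, s a ≤ m → G m a = G (s a) a := by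
    intro a m h
    induction m, h using Nat.le_induction with
    | base => rfl
    | succ m h ih =>
      simp only [G, sum_range_succ] at ih ⊢
      rw [ih, hc a m h, hc a (m + 1) (by omega), h0, add_zero]
  refine ⟨fun a => G (s a) a, fun a b hab => ?_⟩
  have := key (max (s a) (s b)) a b hab
  rwa [hc a _ (le_max_left _ _), hc b _ (le_max_right _ _), hG a _ (le_max_left _ _),
    hG b _ (le_max_right _ _)] at this

variable [NeZero d]

/-- retraction onto the lattice -/
def rho (a : Fin d → ℤ) : BCC d :=
  ⟨fun j => if a j % 2 = a 0 % 2 then a j else a j + 1, fun i j => by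
    dsimp only; split_ifs <;> omega⟩

lemma rho_val (v : BCC d) : rho v.1 = v := by
  ext j
  simp [rho, par v j 0]

lemma rho_near {a b : Fin d → ℤ} (h : king a b) : near 2 (rho a) (rho b) := by
  intro j
  have := h j
  simp only [rho]
  split_ifs <;> omega

theorem not_psi_two {F : SimpleGraph (BCC d)} (hF : F ≤ bccG d) :
    ¬ Sat (compGraph (bccG d) F 2) psi := by
  classical
  rw [sat_psi]
  rintro ⟨x, y, z, z', hxy, hxz, hzz, hzy, hzy', hzx', hno⟩
  let f : F.ConnectedComponent → F.ConnectedComponent → ZMod 2 := fun K K' =>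
    if (K = x ∧ K' ≠ x ∧ K' ≠ y) ∨ (K' = x ∧ K ≠ x ∧ K ≠ y) then 1 else 0
  have hne : x ≠ y := hxy.ne
  have hno' : ∀ a b c : BCC d, F.connectedComponentMk a = x → F.connectedComponentMk b = y →
      F.connectedComponentMk c ≠ x → F.connectedComponentMk c ≠ y → near 2 c a → near 2 c b →
      False := fun a b c ha hb hc hc' h1 h2 =>
    hno _ ⟨⟨hc, c, a, rfl, ha, dist_le_iff.mpr h1⟩, ⟨hc', c, b, rfl, hb, dist_le_iff.mpr h2⟩⟩
  have tri : ∀ a b c : BCC d, near 2 a b → near 2 b c → near 2 a c →
      f (F.connectedComponentMk a) (F.connectedComponentMk c) =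
        f (F.connectedComponentMk a) (F.connectedComponentMk b) +
        f (F.connectedComponentMk b) (F.connectedComponentMk c) := by
    intro a b c h1 h2 h3
    have n1 := hno' a b c
    have n2 := hno' a c b
    have n3 := hno' b a c
    have n4 := hno' b c a
    have n5 := hno' c a b
    have n6 := hno' c b a
    simp only [h1, h2, h3, h1.symm, h2.symm, h3.symm, forall_true_left] at n1 n2 n3 n4 n5 n6
    have two : (1 : ZMod 2) + 1 = 0 := by decide
    generalize F.connectedComponentMk a = A at *
    generalize F.connectedComponentMk b = B at *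
    generalize F.connectedComponentMk c = C at *
    simp only [f]
    by_cases a1 : A = x <;> by_cases a2 : A = y <;> by_cases b1 : B = x <;>
      by_cases b2 : B = y <;> by_cases c1 : C = x <;> by_cases c2 : C = y <;> simp_all
  obtain ⟨g, hg⟩ := potential
    (fun a b => f (F.connectedComponentMk (rho a)) (F.connectedComponentMk (rho b)))
    fun a b c h1 h2 h3 => tri _ _ _ (rho_near h1) (rho_near h2) (rho_near h3)
  have g1 : ∀ u v : BCC d, near 1 u v →
      f (F.connectedComponentMk u) (F.connectedComponentMk v) = g u.1 + g v.1 := by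
    intro u v h
    have := hg u.1 v.1 h
    simpa only [rho_val] using this
  have two : ∀ x : ZMod 2, x + x = 0 := by decide
  have g2 : ∀ u v : BCC d, near 2 u v →
      f (F.connectedComponentMk u) (F.connectedComponentMk v) = g u.1 + g v.1 := by
    intro u v h
    by_cases hne : u = v
    · exact g1 u v (hne ▸ near_refl _ _)
    obtain ⟨m, hm, hm'⟩ := near_step h hne
    rw [tri u m v ((near_of_nb hm).mono (by omega)) (hm'.mono (by omega)) h, g1 _ _ hm',
      g1 _ _ (near_of_nb hm)]
    linear_combination two (g m.1)
  have g3 : ∀ u v : BCC d, F.Reachable u v → g u.1 = g v.1 := by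
    rintro u v ⟨p⟩
    induction p with
    | nil => rfl
    | @cons a b c h p ih =>
      have e := g1 a b (near_of_nb (hF h))
      rw [SimpleGraph.ConnectedComponent.connectedComponentMk_eq_of_adj h] at e
      have : f (F.connectedComponentMk b) (F.connectedComponentMk b) = 0 := by
        simp only [f]; rw [if_neg]; tauto
      rw [← ih]
      linear_combination this - e - two (g b.1)
  have g4 : ∀ K K', (compGraph (bccG d) F 2).Adj K K' → f K K' = g K.out.1 + g K'.out.1 := by
    rintro K K' ⟨-, u, v, rfl, rfl, h⟩
    rw [g2 u v (dist_le_iff.mp h),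
      g3 u _ (SimpleGraph.ConnectedComponent.exact (Quot.out_eq _).symm),
      g3 v _ (SimpleGraph.ConnectedComponent.exact (Quot.out_eq _).symm)]
  have e1 := g4 _ _ hxy
  have e2 := g4 _ _ hxz
  have e3 := g4 _ _ hzz
  have e4 := g4 _ _ hzy
  have q1 := hxz.ne'
  have q2 := hzy.ne
  have f1 : f x y = 0 := by simp [f, hne.symm]
  have f2 : f x z = 1 := by simp [f, q1, hzy']
  have f3 : f z z' = 0 := by simp [f, q1, hzx']
  have f4 : f z' y = 0 := by simp [f, hzx', hne.symm]
  have : (1 : ZMod 2) = 0 := by
    linear_combination e1 + e2 + e3 + e4 - f1 - f2 - f3 - f4 + two (g x.out.1) + two (g y.out.1) +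
      two (g z.out.1) + two (g z'.out.1)
  exact absurd this (by decide)

end Pool.Agent.P.MP_a28080_pr
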