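import Pool.Agent.P.MP_a28080_pr.Pair

/-! The transfer current theorem and the energy bound. -/

namespace Pool.Agent.P.MP_a28080_pr

open Finset Matrix

variable {V : Type*} [DecidableEq V]

/-- unit dipole -/
def bd (x y v : V) : ℝ := (if x = v then 1 else 0) - (if y = v then 1 else 0)

lemma sum_bd {N : Finset V} {x y : V} (hx : x ∈ N) (hy : y ∈ N) (h : V → ℝ) :
    ∑ v ∈ N, bd x y v * h v = h x - h y := by
  simp only [bd, sub_mul, sum_sub_distrib, ite_mul, one_mul, zero_mul, sum_ite_eq, hx, hy, if_true]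

lemma edge_sum {N : Finset V} {nb : V → Finset V} {x y : V} (hxy : x ≠ y) (h1 : y ∈ nb x)
    (h2 : x ∈ nb y) (v : V) (w : N) :
    ∑ z ∈ nb v, (if s(v, z) = s(x, y) then (1 : ℝ) else 0) * rw1 N v z w =
      bd x y v * bd x y w.1 := by
  by_cases hx : x = v
  · subst hx
    rw [sum_eq_single_of_mem y h1]
    · simp [bd, rw1, hxy.symm]
    · intro z _ hz
      rw [if_neg, zero_mul]
      simp [hz, hxy]
  by_cases hy : y = v
  · subst hy
    rw [sum_eq_single_of_mem x h2]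
    · rw [if_pos Sym2.eq_swap]
      simp [bd, rw1, hxy]
    · intro z _ hz
      rw [if_neg, zero_mul]
      simp [hz, hxy.symm]
  · rw [sum_eq_zero]
    · simp [bd, hx, hy]
    · intro z _
      rw [if_neg, zero_mul]
      simp [Ne.symm hx, Ne.symm hy]

theorem transfer {N : Finset V} {nb : V → Finset V} (hne : (For N nb).Nonempty) {κ : Type*}
    [Fintype κ] [DecidableEq κ] (x y : κ → V) (hx : ∀ e, x e ∈ N) (hy : ∀ e, y e ∈ N)
    (hxy : ∀ e, x e ≠ y e) (h1 : ∀ e, y e ∈ nb (x e)) (h2 : ∀ e, x e ∈ nb (y e))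
    (hinj : ∀ e g, s(x e, y e) = s(x g, y g) → e = g) :
    ∃ φ : κ → V → ℝ, (∀ g v, v ∉ N → φ g v = 0) ∧
      (∀ g, ∀ v ∈ N, ∑ z ∈ nb v, (φ g v - φ g z) = bd (x g) (y g) v) ∧
      nf (For N nb) (fun f => ∀ v ∈ N, ∀ e, s(v, f v) ≠ s(x e, y e)) =
        (For N nb).card * (1 - Matrix.of fun e g => φ g (x e) - φ g (y e)).det := by
  classical
  obtain ⟨L, hL⟩ : ∃ L, L = lap N nb fun _ _ => 1 := ⟨_, rfl⟩
  have hdet : L.det = (For N nb).card := by rw [hL, det_lap_one]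
  have hu : IsUnit L.det := by
    rw [hdet, isUnit_iff_ne_zero]
    exact_mod_cast hne.card_pos.ne'
  let φ : κ → V → ℝ := fun g v =>
    if h : v ∈ N then (L⁻¹ *ᵥ fun w : N => bd (x g) (y g) w.1) ⟨v, h⟩ else 0
  have hφ : ∀ g, (fun w : N => φ g w.1) = L⁻¹ *ᵥ fun w : N => bd (x g) (y g) w.1 := by
    intro g; funext w; simp [φ, w.2]
  have hφ0 : ∀ g v, v ∉ N → φ g v = 0 := fun g v hv => by simp [φ, hv]
  refine ⟨φ, hφ0, fun g v hv => ?_, ?_⟩
  · have e := lap_mulVec N nb (fun _ _ => 1) (φ g) ⟨v, hv⟩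
    rw [hφ, ← hL, Matrix.mulVec_mulVec, Matrix.mul_nonsing_inv _ hu, Matrix.one_mulVec] at e
    refine Eq.trans (sum_congr rfl fun z _ => ?_) e.symm
    split_ifs with h
    · simp
    · simp [hφ0 g z h]
  let c : V → V → ℝ := fun v z => if ∀ e, s(v, z) ≠ s(x e, y e) then 1 else 0
  let U : Matrix N κ ℝ := Matrix.of fun v e => bd (x e) (y e) v.1
  let W : Matrix κ N ℝ := Matrix.of fun e v => - bd (x e) (y e) v.1
  have hc : ∀ v z, c v z = 1 - ∑ e, if s(v, z) = s(x e, y e) then (1 : ℝ) else 0 := by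
    intro v z
    by_cases h : ∀ e, s(v, z) ≠ s(x e, y e)
    · simp only [c]
      rw [if_pos h, sum_eq_zero fun e _ => if_neg (h e), sub_zero]
    · simp only [c, h, if_false]
      simp only [ne_eq, not_forall, not_not] at h
      obtain ⟨e, he⟩ := h
      rw [sum_eq_single e]
      · simp [he]
      · intro g _ hg
        rw [if_neg]
        intro h'
        exact hg (hinj _ _ (h'.symm.trans he))
      · simp
  have hlap : lap N nb c = L + U * W := by
    ext v w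
    rw [Matrix.add_apply, Matrix.mul_apply, hL]
    simp only [lap, Matrix.of_apply, Finset.sum_apply, Pi.smul_apply, smul_eq_mul, hc, sub_mul,
      sum_sub_distrib, sum_mul, U, W, mul_neg, sum_neg_distrib]
    rw [sum_comm, sub_eq_add_neg]
    congr 2
    exact sum_congr rfl fun e _ => edge_sum (hxy e) (h1 e) (h2 e) v.1 w
  have e1 := det_lap N nb c
  rw [hlap, Matrix.det_add_mul U W hu, hdet] at e1
  rw [nf_eq, card_filter]
  push_cast
  have e2 : ∀ f : V → V, ∏ v ∈ N, c v (f v) =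
      if ∀ v ∈ N, ∀ e, s(v, f v) ≠ s(x e, y e) then 1 else 0 := by
    intro f
    simp only [c]
    rw [Finset.prod_boole]
  simp only [e2] at e1
  rw [← e1]
  congr 2
  ext e g
  rw [Matrix.add_apply, Matrix.sub_apply, Matrix.mul_assoc, Matrix.mul_apply, sub_eq_add_neg]
  congr 1
  have e3 : ∀ v : N, (L⁻¹ * U) v g = φ g v.1 := fun v => (congrFun (hφ g) v).symm
  simp only [e3, W, Matrix.of_apply, neg_mul, sum_neg_distrib]
  rw [Finset.sum_coe_sort N (fun v => bd (x e) (y e) v * φ g v), sum_bd (hx e) (hy e)]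

lemma energy_le {N : Finset V} {nb : V → Finset V}
    (hsym : ∀ v ∈ N, ∀ z ∈ N, z ∈ nb v → v ∈ nb z) {x y : V} (hx : x ∈ N) (hy : y ∈ N)
    (h1 : y ∈ nb x) {φ : V → ℝ} (h0 : ∀ v, v ∉ N → φ v = 0)
    (hφ : ∀ v ∈ N, ∑ z ∈ nb v, (φ v - φ z) = bd x y v) :
    ∑ v ∈ N, ∑ z ∈ nb v, (φ v - φ z) ^ 2 ≤ 4 := by
  have e1 : ∑ v ∈ N, ∑ z ∈ nb v, φ v * (φ v - φ z) = φ x - φ y := by
    rw [← sum_bd hx hy φ]
    refine sum_congr rfl fun v hv => ?_
    rw [← mul_sum, hφ v hv, mul_comm]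
  have e2 : ∑ v ∈ N, ∑ z ∈ nb v, φ z * (φ z - φ v) ≤
      ∑ v ∈ N, ∑ z ∈ nb v, φ v * (φ v - φ z) := by
    calc ∑ v ∈ N, ∑ z ∈ nb v, φ z * (φ z - φ v)
        = ∑ v ∈ N, ∑ z ∈ N, if z ∈ nb v then φ z * (φ z - φ v) else 0 := by
          refine sum_congr rfl fun v _ => ?_
          rw [← sum_filter]
          symm
          refine sum_subset (fun z hz => (mem_filter.mp hz).2) fun z hz hz' => ?_
          rw [h0 z fun h => hz' (mem_filter.mpr ⟨h, hz⟩), zero_mul]
      _ = ∑ z ∈ N, ∑ v ∈ N, if v ∈ nb z then φ z * (φ z - φ v) else 0 := by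
          rw [sum_comm]
          refine sum_congr rfl fun z hz => sum_congr rfl fun v hv => ?_
          exact if_congr ⟨hsym v hv z hz, hsym z hz v hv⟩ rfl rfl
      _ ≤ _ := by
          refine sum_le_sum fun z _ => ?_
          rw [← sum_filter]
          refine sum_le_sum_of_subset_of_nonneg (fun v hv => (mem_filter.mp hv).2)
            fun v hv hv' => ?_
          rw [h0 v fun h => hv' (mem_filter.mpr ⟨h, hv⟩), sub_zero]
          exact mul_self_nonneg _
  have e3 : ∑ v ∈ N, ∑ z ∈ nb v, (φ v - φ z) ^ 2 = ∑ v ∈ N, ∑ z ∈ nb v, φ v * (φ v - φ z) +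
      ∑ v ∈ N, ∑ z ∈ nb v, φ z * (φ z - φ v) := by
    rw [← sum_add_distrib]
    refine sum_congr rfl fun v _ => ?_
    rw [← sum_add_distrib]
    exact sum_congr rfl fun z _ => by ring
  have e4 : (φ x - φ y) ^ 2 ≤ ∑ v ∈ N, ∑ z ∈ nb v, (φ v - φ z) ^ 2 :=
    (single_le_sum (f := fun z => (φ x - φ z) ^ 2) (fun _ _ => sq_nonneg _) h1).trans
      (single_le_sum (f := fun v => ∑ z ∈ nb v, (φ v - φ z) ^ 2)
        (fun _ _ => sum_nonneg fun _ _ => sq_nonneg _) hx)
  nlinarith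

end Pool.Agent.P.MP_a28080_pr
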