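import Pool.Agent.P.MP_a28080_pr.Heat
import Pool.Agent.P.MP_a28080_pr.Transfer

/-! Universal limits of currents and of cylinder probabilities. -/

namespace Pool.Agent.P.MP_a28080_pr

open Finset Filter Topology

variable {d : ℕ}

/-- the averaging operator -/
noncomputable def avg (h : BCC d → ℝ) : BCC d → ℝ := fun v => (2 ^ d)⁻¹ * ∑ ε, h (v + st ε)

lemma avg_loc (θ η : BCC d → ℝ) (t : ℕ) (v : BCC d)
    (h : ∀ w, near t v w → θ w = η w + avg θ w) :
    θ v = ∑ j ∈ range t, avg^[j] η v + avg^[t] θ v := by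
  induction t generalizing v with
  | zero => simp
  | succ t ih =>
    rw [h v (near_refl _ _), sum_range_succ', Function.iterate_succ_apply']
    simp only [Function.iterate_succ_apply', Function.iterate_zero, id]
    have e : ∀ ε, θ (v + st ε) = ∑ j ∈ range t, avg^[j] η (v + st ε) + avg^[t] θ (v + st ε) :=
      fun ε => ih _ fun w hw => h w (add_comm 1 t ▸ (near_of_nb (add_st_mem v ε)).trans hw)
    have e2 : avg θ v = ∑ j ∈ range t, avg (avg^[j] η) v + avg (avg^[t] θ) v := by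
      conv_lhs => simp only [avg, e]
      rw [sum_add_distrib, mul_add, sum_comm, mul_sum]
      rfl
    rw [e2]; ring

lemma avg_rep (θ : BCC d → ℝ) (t : ℕ) (v : BCC d) (W : Finset (BCC d))
    (h : ∀ w, near t v w → w ∈ W) : avg^[t] θ v = ∑ w ∈ W, hp t (v - w) * θ w := by
  induction t generalizing v with
  | zero => simp [hp_zero, sub_eq_zero, h v (near_refl _ _)]
  | succ t ih =>
    rw [Function.iterate_succ_apply']
    have e : ∀ ε, avg^[t] θ (v + st ε) = ∑ w ∈ W, hp t (v + st ε - w) * θ w :=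
      fun ε => ih _ fun w hw => h w (add_comm 1 t ▸ (near_of_nb (add_st_mem v ε)).trans hw)
    simp only [avg, hp_succ, mul_assoc, sum_mul] at e ⊢
    simp only [e, add_sub_right_comm]
    rw [← mul_sum, sum_comm]

lemma avg_one (t : ℕ) : avg^[t] (fun _ : BCC d => (1 : ℝ)) = fun _ => 1 := by
  refine Function.iterate_fixed ?_ t
  funext v
  simp [avg]

lemma avg_bound (hd : d = 20) (θ : BCC d → ℝ) (t : ℕ) (v : BCC d)
    (h : ∑ w ∈ box v t, θ w ^ 2 ≤ 4) : |avg^[t] θ v| ≤ 64 / ((t : ℝ) + 1) := by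
  have h1 := avg_rep (fun _ => 1) t v (box v t) fun w => mem_box.mpr
  rw [avg_one] at h1
  simp only [mul_one] at h1
  have h2 : ∑ w ∈ box v t, hp t (v - w) ^ 2 ≤ 1024 / ((t : ℝ) + 1) ^ 2 := by
    refine le_trans ?_ (le_of_eq ((congrArg (1024 / ((t : ℝ) + 1) ^ 2 * ·) h1.symm).trans
      (mul_one _)))
    simp only [mul_sum]
    refine sum_le_sum fun w _ => ?_
    rw [sq (hp t _)]
    refine mul_le_mul_of_nonneg_right ((hp_le hd t _).trans ?_) (hp_nonneg _ _)
    have h3 : ((t : ℝ) + 1) ^ 2 ≤ ((t : ℝ) + 1) ^ 10 := pow_le_pow_right₀ (by simp) (by norm_num)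
    exact div_le_div_of_nonneg_left (by norm_num) (by positivity) h3
  refine abs_le_of_sq_le_sq' ?_ (by positivity) |> abs_le.mpr
  rw [avg_rep θ t v (box v t) fun w => mem_box.mpr]
  refine (sum_mul_sq_le_sq_mul_sq _ _ _).trans ?_
  refine (mul_le_mul h2 h (sum_nonneg fun _ _ => sq_nonneg _) (by positivity)).trans (le_of_eq ?_)
  field_simp
  norm_num

lemma univ_lim {S y : ℕ → ℝ} (h : ∀ t : ℕ, ∀ᶠ n in atTop, |y n - S t| ≤ 64 / ((t : ℝ) + 1)) :
    Tendsto y atTop (𝓝 (limUnder atTop S)) := by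
  have hδ : Tendsto (fun t : ℕ => 64 / ((t : ℝ) + 1)) atTop (𝓝 0) := by
    simpa [div_eq_mul_inv] using tendsto_one_div_add_atTop_nhds_zero_nat.const_mul (64 : ℝ)
  have hc : CauchySeq S := by
    rw [Metric.cauchySeq_iff']
    intro ε hε
    obtain ⟨N, hN⟩ := eventually_atTop.mp (hδ.eventually (gt_mem_nhds (half_pos hε)))
    refine ⟨N, fun n hn => ?_⟩
    obtain ⟨m, h1, h2⟩ := ((h n).and (h N)).exists
    have := hN n hn
    have := hN N le_rfl
    rw [Real.dist_eq, abs_lt]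
    rw [abs_le] at h1 h2
    constructor <;> linarith [h1.1, h1.2, h2.1, h2.2]
  have hS := hc.tendsto_limUnder
  rw [Metric.tendsto_nhds] at hS ⊢
  intro ε hε
  obtain ⟨t, h1, h2⟩ := ((hδ.eventually (gt_mem_nhds (half_pos hε))).and
    (hS _ (half_pos hε))).exists
  filter_upwards [h t] with n hn
  rw [Real.dist_eq, abs_lt] at h2 ⊢
  rw [abs_le] at hn
  constructor <;> linarith [hn.1, hn.2, h2.1, h2.2]

/-- admissible sequences of finite networks -/
def Adm (N : ℕ → Finset (BCC d)) (nb : ℕ → BCC d → Finset (BCC d)) : Prop :=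
  (∀ n, (For (N n) (nb n)).Nonempty) ∧
    (∀ n, ∀ v ∈ N n, ∀ z ∈ N n, z ∈ nb n v → v ∈ nb n z) ∧ (∀ n v, nb n v ⊆ nbL v) ∧
    ∀ K : Finset (BCC d), ∀ᶠ n in atTop, ∀ v ∈ K, v ∈ N n ∧ nb n v = nbL v

lemma current_lim (hd : d = 20) {x y : BCC d} (hxy : y ∈ nbL x) (a : BCC d) (ε : Fin d → Bool) :
    ∃ l : ℝ, ∀ N nb, Adm N nb → ∀ φ : ℕ → BCC d → ℝ,
      (∀ᶠ n in atTop, (∀ v, v ∉ N n → φ n v = 0) ∧
        ∀ v ∈ N n, ∑ z ∈ nb n v, (φ n v - φ n z) = bd x y v) →
      Tendsto (fun n => φ n a - φ n (a + st ε)) atTop (𝓝 l) := by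
  let η : BCC d → ℝ := fun v => (2 ^ d)⁻¹ * (bd x y v - bd x y (v + st ε))
  refine ⟨limUnder atTop fun t => ∑ j ∈ range t, avg^[j] η a, fun N nb hA φ hφ => ?_⟩
  refine univ_lim fun t => ?_
  filter_upwards [hφ, hA.2.2.2 (box a (t + 1)), hA.2.2.2 {x, y}] with n ⟨h0, h1⟩ h2 h3
  have hx := h3 x (by simp)
  have hy := h3 y (by simp)
  have en := energy_le (hA.2.1 n) hx.1 hy.1 (hx.2 ▸ hxy) h0 h1
  have hD : (2 : ℝ) ^ d ≠ 0 := by positivity
  have key : ∀ w, near (t + 1) a w → φ n w = (2 ^ d)⁻¹ * bd x y w + avg (φ n) w := by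
    intro w hw
    obtain ⟨k1, k2⟩ := h2 w (mem_box.mpr hw)
    have := h1 w k1
    rw [k2, sum_sub_distrib, sum_const, card_nbL, nsmul_eq_mul, sum_nbL] at this
    push_cast at this
    simp only [avg]
    field_simp
    linarith
  have loc := avg_loc (fun v => φ n v - φ n (v + st ε)) η t a fun w hw => by
    rw [key w (hw.mono (Nat.le_succ t)), key (w + st ε) (hw.trans (near_of_nb (add_st_mem w ε)))]
    simp only [η, avg, sum_sub_distrib, add_right_comm w (st ε)]
    ring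
  rw [loc, add_sub_cancel_left]
  refine avg_bound hd _ t a (le_trans ?_ en)
  have hsub : box a t ⊆ N n := fun w hw =>
    (h2 w (mem_box.mpr ((mem_box.mp hw).mono (Nat.le_succ t)))).1
  refine le_trans (sum_le_sum fun w hw => ?_) (sum_le_sum_of_subset_of_nonneg hsub
    fun _ _ _ => sum_nonneg fun _ _ => sq_nonneg _)
  refine single_le_sum (f := fun z => (φ n w - φ n z) ^ 2) (fun _ _ => sq_nonneg _) ?_
  rw [(h2 w (mem_box.mpr ((mem_box.mp hw).mono (Nat.le_succ t)))).2]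
  exact add_st_mem w ε

/-- the graph of a parent map -/
def gr {V : Type*} (f : V → V) : SimpleGraph V := SimpleGraph.fromRel fun v x => f v = x

lemma gr_adj {V : Type*} {f : V → V} {a b : V} :
    (gr f).Adj a b ↔ a ≠ b ∧ (f a = b ∨ f b = a) := SimpleGraph.fromRel_adj _ _ _

lemma mem_gr {V : Type*} [DecidableEq V] {N : Finset V} {nb : V → Finset V} {f : V → V}
    (hf : f ∈ For N nb) {e : Sym2 V} : e ∈ (gr f).edgeSet ↔ ∃ v ∈ N, s(v, f v) = e := by
  have h1 := (mem_For.mp hf).1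
  constructor
  · induction e using Sym2.ind with
    | h a b =>
      rw [SimpleGraph.mem_edgeSet, gr_adj]
      rintro ⟨hne, h | h⟩
      · exact ⟨a, by_contra fun ha => hne ((h1 a ha).symm.trans h), by rw [h]⟩
      · exact ⟨b, by_contra fun hb => hne (h.symm.trans (h1 b hb)), by rw [h, Sym2.eq_swap]⟩
  · rintro ⟨v, hv, rfl⟩
    rw [SimpleGraph.mem_edgeSet, gr_adj]
    exact ⟨fun h => not_periodic hf one_pos h.symm hv, Or.inl rfl⟩

variable [NeZero d]

lemma avoid_lim (hd : d = 20) (B : Finset (Sym2 (BCC d))) : ∃ l : ℝ, ∀ N nb, Adm N nb →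
    Tendsto (fun n => nf (For (N n) (nb n)) (fun f => gr f ∈ cyl ∅ B) / (For (N n) (nb n)).card)
      atTop (𝓝 l) := by
  classical
  let κ := {e // e ∈ B.filter (· ∈ (bccG d).edgeSet)}
  have hex : ∀ e : κ, ∃ x ε, e.1 = s(x, x + st ε) := by
    rintro ⟨e, he⟩
    induction e using Sym2.ind with
    | h a b =>
      have hb : b ∈ nbL a := (mem_filter.mp he).2
      obtain ⟨ε, -, rfl⟩ := mem_image.mp hb
      exact ⟨a, ε, rfl⟩
  choose x ε hxe using hex
  choose l hl using fun e g : κ => current_lim hd (add_st_mem (x g) (ε g)) (x e) (ε e)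
  refine ⟨(1 - Matrix.of l).det, fun N nb hA => ?_⟩
  let K : Finset (BCC d) := univ.image x ∪ univ.image fun e => x e + st (ε e)
  have hx : ∀ e, x e ∈ K := fun e => by simp [K]
  have hy : ∀ e, x e + st (ε e) ∈ K := fun e => by simp [K]
  have hT : ∀ n, ∃ φ : κ → BCC d → ℝ, (∀ v ∈ K, v ∈ N n ∧ nb n v = nbL v) →
      (∀ g v, v ∉ N n → φ g v = 0) ∧
      (∀ g, ∀ v ∈ N n, ∑ z ∈ nb n v, (φ g v - φ g z) = bd (x g) (x g + st (ε g)) v) ∧
      nf (For (N n) (nb n)) (fun f => ∀ v ∈ N n, ∀ e, s(v, f v) ≠ s(x e, x e + st (ε e))) =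
        (For (N n) (nb n)).card *
          (1 - Matrix.of fun e g => φ g (x e) - φ g (x e + st (ε e))).det := by
    intro n
    by_cases h : ∀ v ∈ K, v ∈ N n ∧ nb n v = nbL v
    · obtain ⟨φ, hφ⟩ := transfer (hA.1 n) x (fun e => x e + st (ε e)) (fun e => (h _ (hx e)).1)
        (fun e => (h _ (hy e)).1) (fun e => (bccG_adj.mpr (add_st_mem (x e) (ε e))).ne)
        (fun e => (h _ (hx e)).2 ▸ add_st_mem _ _)
        (fun e => (h _ (hy e)).2 ▸ nbL_symm _ _ (add_st_mem _ _))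
        (fun e g h => Subtype.ext ((hxe e).trans (h.trans (hxe g).symm)))
      exact ⟨φ, fun _ => hφ⟩
    · exact ⟨fun _ _ => 0, fun h' => absurd h' h⟩
  choose φ hφ using hT
  have hlim : Tendsto (fun n => (1 - Matrix.of fun e g =>
      φ n g (x e) - φ n g (x e + st (ε e))).det) atTop (𝓝 (1 - Matrix.of l).det) := by
    refine ((continuous_const.sub continuous_id).matrix_det.tendsto (Matrix.of l)).comp
      (f := fun n => Matrix.of fun e g => φ n g (x e) - φ n g (x e + st (ε e))) ?_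
    refine tendsto_pi_nhds.mpr fun e => tendsto_pi_nhds.mpr fun g => hl e g N nb hA _ ?_
    filter_upwards [hA.2.2.2 K] with n hn
    exact ⟨(hφ n hn).1 g, (hφ n hn).2.1 g⟩
  refine hlim.congr' ?_
  filter_upwards [hA.2.2.2 K] with n hn
  have hZ : ((For (N n) (nb n)).card : ℝ) ≠ 0 := by exact_mod_cast (hA.1 n).card_pos.ne'
  rw [eq_div_iff hZ, mul_comm, ← (hφ n hn).2.2]
  refine nf_congr fun f hf => ?_
  simp only [cyl, notMem_empty, false_imp_iff, implies_true, true_and, Set.mem_ofPred_eq,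
    mem_gr hf, ← hxe]
  constructor
  · rintro h e he ⟨v, hv, rfl⟩
    exact h v hv ⟨_, mem_filter.mpr ⟨he, hA.2.2.1 n v ((mem_For.mp hf).2.1 v hv)⟩⟩ rfl
  · intro h v hv e he
    exact h e.1 (mem_filter.mp e.2).1 ⟨v, hv, he⟩

lemma cyl_lim (hd : d = 20) (A B : Finset (Sym2 (BCC d))) : ∃ l : ℝ, ∀ N nb, Adm N nb →
    Tendsto (fun n => nf (For (N n) (nb n)) (fun f => gr f ∈ cyl A B) / (For (N n) (nb n)).card)
      atTop (𝓝 l) := by
  classical
  induction A using Finset.induction_on generalizing B with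
  | empty => exact avoid_lim hd B
  | insert e A he ih =>
    obtain ⟨l1, h1⟩ := ih B
    obtain ⟨l2, h2⟩ := ih (insert e B)
    refine ⟨l1 - l2, fun N nb hA => ((h1 N nb hA).sub (h2 N nb hA)).congr fun n => ?_⟩
    rw [← sub_div, ← nf_add_not _ (fun f => gr f ∈ cyl A B) fun f => e ∈ (gr f).edgeSet]
    congr 1
    rw [nf_congr (E := fun f => gr f ∈ cyl A (insert e B))
      (E' := fun f => gr f ∈ cyl A B ∧ e ∉ (gr f).edgeSet), add_sub_cancel_right]
    · refine nf_congr fun f _ => ?_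
      simp only [cyl, Set.mem_ofPred_eq, forall_mem_insert]
      tauto
    · intro f _
      simp only [cyl, Set.mem_ofPred_eq, forall_mem_insert]
      tauto

end Pool.Agent.P.MP_a28080_pr
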