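import Mathlib

/-! Definitions used in the statement. -/

namespace Pool.Agent.P.MP_a28080_pr

open MeasureTheory Filter Topology FirstOrder

variable {V : Type}

/-- The ball `B(v,n)` for the graph distance. -/
def gball (G : SimpleGraph V) (v : V) (n : ℕ) : Set V := {w | G.dist v w ≤ n}

/-- `G` is countably infinite, connected, locally finite, vertex-transitive and
`d`-dimensional. -/
def DimTrans (G : SimpleGraph V) (d : ℕ) : Prop :=
  Countable V ∧ Infinite V ∧ G.Connected ∧ (∀ v, (G.neighborSet v).Finite) ∧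
    (∀ u v, ∃ σ : G ≃g G, σ u = v) ∧
    ∃ c C : ℝ, 0 < c ∧ c ≤ C ∧ ∀ (v : V) (n : ℕ), 1 ≤ n →
      c * (n : ℝ) ^ d ≤ ((gball G v n).ncard : ℝ) ∧ ((gball G v n).ncard : ℝ) ≤ C * (n : ℝ) ^ d

/-- An exhaustion of `G` by finite vertex sets with connected induced subgraphs. -/
def Exhaustion (G : SimpleGraph V) (Λ : ℕ → Finset V) : Prop :=
  Monotone Λ ∧ (∀ v, ∃ n, v ∈ Λ n) ∧ ∀ n, (G.induce (Λ n : Set V)).Connected

/-- The spanning trees of the subgraph of `G` induced on `Λ`, seen as graphs on `V`. -/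
def spTrees (G : SimpleGraph V) (Λ : Finset V) : Set (SimpleGraph V) :=
  {T | T ≤ G ∧ T.support ⊆ (Λ : Set V) ∧ (T.induce (Λ : Set V)).IsTree}

/-- The probability of `E` under the uniform spanning tree of the subgraph induced on `Λ`. -/
noncomputable def ustProb (G : SimpleGraph V) (Λ : Finset V) (E : Set (SimpleGraph V)) : ℝ :=
  ((spTrees G Λ ∩ E).ncard : ℝ) / ((spTrees G Λ).ncard : ℝ)

/-- The cylinder event: all pairs in `A` are edges and no pair in `B` is an edge. -/
def cyl (A B : Finset (Sym2 V)) : Set (SimpleGraph V) :=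
  {T | (∀ e ∈ A, e ∈ T.edgeSet) ∧ ∀ e ∈ B, e ∉ T.edgeSet}

/-- `μ` is the law of the uniform spanning forest of `G`: exhaustions exist, and along every
exhaustion the uniform spanning tree measures converge to `μ` on every cylinder event. -/
def IsUSF (G : SimpleGraph V) (μ : Measure (SimpleGraph V)) : Prop :=
  IsProbabilityMeasure μ ∧ (∃ Λ, Exhaustion G Λ) ∧ ∀ Λ, Exhaustion G Λ → ∀ A B,
    Tendsto (fun n => ustProb G (Λ n) (cyl A B)) atTop (𝓝 (μ.real (cyl A B)))

/-- The component graph `C_r(F)`. -/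
def compGraph (G F : SimpleGraph V) (r : ℕ) : SimpleGraph F.ConnectedComponent where
  Adj K K' := K ≠ K' ∧
    ∃ u v, F.connectedComponentMk u = K ∧ F.connectedComponentMk v = K' ∧ G.dist u v ≤ r
  symm := ⟨fun _ _ ⟨h, u, v, hu, hv, hd⟩ =>
    ⟨h.symm, v, u, hv, hu, SimpleGraph.dist_comm ▸ hd⟩⟩
  loopless := ⟨fun _ h => h.1 rfl⟩

/-- The graph `H` satisfies the first-order sentence `φ` of the language of graphs. -/
def Sat {W : Type} (H : SimpleGraph W) (φ : Language.graph.Sentence) : Prop :=
  @Language.Sentence.Realize Language.graph W H.structure φ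

/-- Elementary equivalence of graphs: they satisfy the same first-order sentences. -/
def ElemEq {W W' : Type} (H : SimpleGraph W) (H' : SimpleGraph W') : Prop :=
  ∀ φ : Language.graph.Sentence, Sat H φ ↔ Sat H' φ

end Pool.Agent.P.MP_a28080_pr
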