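import Mathlib

/-! Rooted forests as parent maps and the matrix tree theorem. -/

namespace Pool.Agent.P.MP_a28080_pr

open Finset Matrix

variable {V : Type*} [DecidableEq V]

/-- extend a map on `N` by the identity -/
def extN (N : Finset V) (r : N → V) : V → V := fun v => if h : v ∈ N then r ⟨v, h⟩ else v

lemma extN_inj (N : Finset V) : Function.Injective (extN N) := by
  intro r r' h
  funext v
  have := congrFun h v.1
  simpa [extN, v.2] using this

/-- parent maps -/
def Maps (N : Finset V) (nb : V → Finset V) : Finset (V → V) := by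
  classical exact (Fintype.piFinset fun v : N => nb v.1).map ⟨extN N, extN_inj N⟩

lemma mem_Maps {N : Finset V} {nb : V → Finset V} {f : V → V} :
    f ∈ Maps N nb ↔ (∀ v, v ∉ N → f v = v) ∧ ∀ v ∈ N, f v ∈ nb v := by
  classical
  simp only [Maps, mem_map, Fintype.mem_piFinset, Function.Embedding.coeFn_mk]
  constructor
  · rintro ⟨r, hr, rfl⟩
    refine ⟨fun v hv => by simp [extN, hv], fun v hv => ?_⟩
    simpa [extN, hv] using hr ⟨v, hv⟩
  · rintro ⟨h1, h2⟩
    refine ⟨fun v => f v.1, fun v => h2 _ v.2, ?_⟩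
    funext v
    by_cases hv : v ∈ N
    · simp [extN, hv]
    · simp [extN, hv, h1 v hv]

/-- every orbit leaves `N` -/
def Exits (N : Finset V) (f : V → V) : Prop := ∀ v, ∃ n, f^[n] v ∉ N

open Classical in
/-- rooted forests -/
noncomputable def For (N : Finset V) (nb : V → Finset V) : Finset (V → V) :=
  (Maps N nb).filter (Exits N)

lemma mem_For {N : Finset V} {nb : V → Finset V} {f : V → V} :
    f ∈ For N nb ↔ (∀ v, v ∉ N → f v = v) ∧ (∀ v ∈ N, f v ∈ nb v) ∧ Exits N f := by
  simp [For, mem_Maps, and_assoc]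

/-- multilinear expansion over parent maps -/
lemma det_expand (N : Finset V) (nb : V → Finset V) (c : V → V → ℝ) (row : V → V → N → ℝ) :
    (Matrix.of fun v : N => ∑ x ∈ nb v.1, c v.1 x • row v.1 x).det =
      ∑ f ∈ Maps N nb, (∏ v ∈ N, c v (f v)) * (Matrix.of fun v : N => row v.1 (f v.1)).det := by
  classical
  have h := (Matrix.detRowAlternating (R := ℝ) (n := N)).toMultilinearMap.map_sum_finset
    (fun (v : N) (x : V) => c v.1 x • row v.1 x) (fun v : N => nb v.1)
  have e1 : (Matrix.of fun v : N => ∑ x ∈ nb v.1, c v.1 x • row v.1 x).det =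
      (Matrix.detRowAlternating (R := ℝ) (n := N)).toMultilinearMap
        (fun v : N => ∑ x ∈ nb v.1, c v.1 x • row v.1 x) := rfl
  rw [e1, h, Maps, sum_map]
  refine sum_congr rfl fun r _ => ?_
  rw [MultilinearMap.map_smul_univ]
  simp only [Function.Embedding.coeFn_mk, smul_eq_mul]
  congr 1
  · rw [← Finset.prod_coe_sort N]
    refine prod_congr rfl fun v _ => by simp [extN, v.2]
  · have : (fun v : N => row v.1 (extN N r v.1)) = fun v : N => row v.1 (r v) := by
      funext v; simp [extN, v.2]
    rw [this]; rfl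

/-- the row of `1 - A` -/
def rw1 (N : Finset V) (v x : V) : N → ℝ :=
  fun w => (if v = w.1 then 1 else 0) - (if x = w.1 then 1 else 0)

lemma sum_rw1 (N : Finset V) (v x : V) (h : V → ℝ) :
    ∑ w : N, rw1 N v x w * h w.1 =
      (if v ∈ N then h v else 0) - (if x ∈ N then h x else 0) := by
  simp only [rw1, sub_mul, sum_sub_distrib, ite_mul, one_mul, zero_mul]
  rw [Finset.sum_coe_sort N (fun w => if v = w then h w else 0),
    Finset.sum_coe_sort N (fun w => if x = w then h w else 0)]
  simp [sum_ite_eq]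

omit [DecidableEq V] in
lemma iter_fix {N : Finset V} {f : V → V} (h1 : ∀ v, v ∉ N → f v = v) {v : V} (hv : v ∉ N)
    (n : ℕ) : f^[n] v = v := Function.iterate_fixed (h1 v hv) n

lemma det_rw1_exits (N : Finset V) (f : V → V) (h1 : ∀ v, v ∉ N → f v = v) (hf : Exits N f) :
    (Matrix.of fun v : N => rw1 N v.1 (f v.1)).det = 1 := by
  classical
  obtain ⟨A, hA⟩ : ∃ A : Matrix N N ℝ, ∀ v w : N, A v w = if f v.1 = w.1 then 1 else 0 :=
    ⟨Matrix.of fun v w : N => if f v.1 = w.1 then 1 else 0, fun _ _ => rfl⟩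
  have hone : ∀ v w : N, (1 : Matrix N N ℝ) v w = if v.1 = w.1 then 1 else 0 := by
    intro v w
    rw [Matrix.one_apply]
    by_cases h : v = w
    · rw [if_pos h, if_pos (congrArg _ h)]
    · rw [if_neg h, if_neg (fun h' => h (Subtype.ext h'))]
  have hpow : ∀ k (v w : N), (A ^ k) v w = if f^[k] v.1 = w.1 then 1 else 0 := by
    intro k
    induction k with
    | zero => intro v w; rw [pow_zero, hone]; rfl
    | succ k ih =>
      intro v w
      rw [pow_succ', Matrix.mul_apply]
      simp only [ih, hA, ite_mul, one_mul, zero_mul]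
      rw [Finset.sum_coe_sort N (fun u => if f v.1 = u then
        (if f^[k] u = w.1 then (1 : ℝ) else 0) else 0)]
      rw [sum_ite_eq, Function.iterate_succ_apply]
      split_ifs with h2 h3 h3
      · rfl
      · rfl
      · rw [iter_fix h1 h2] at h3
        exact absurd (h3 ▸ w.2) h2
      · rfl
  choose n hn using hf
  have hnil : IsNilpotent A := by
    refine ⟨N.sup n, ?_⟩
    ext v w
    rw [hpow, if_neg, Matrix.zero_apply]
    intro h
    obtain ⟨k, hk⟩ := Nat.exists_eq_add_of_le (Finset.le_sup (f := n) v.2)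
    rw [hk, add_comm, Function.iterate_add_apply, iter_fix h1 (hn _)] at h
    exact hn _ (h ▸ w.2)
  have h2 := (Matrix.isNilpotent_charpoly_sub_pow_of_isNilpotent hnil).eq_zero
  have h3 := Matrix.eval_charpoly A 1
  rw [sub_eq_zero.mp h2] at h3
  simp only [Polynomial.eval_pow, Polynomial.eval_X, one_pow] at h3
  rw [h3]
  congr 1
  ext v w
  rw [map_one, Matrix.sub_apply, hone, hA]; rfl

lemma det_rw1_not (N : Finset V) (f : V → V) (hf : ¬ Exits N f) :
    (Matrix.of fun v : N => rw1 N v.1 (f v.1)).det = 0 := by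
  classical
  rw [← Matrix.exists_mulVec_eq_zero_iff]
  let h : V → ℝ := fun v => if ∀ n, f^[n] v ∈ N then 1 else 0
  refine ⟨fun v => h v.1, ?_, ?_⟩
  · simp only [Exits, not_forall, not_exists, not_not] at hf
    obtain ⟨v, hv⟩ := hf
    intro h0
    have := congrFun h0 ⟨v, hv 0⟩
    simp [h, hv] at this
  · funext v
    simp only [Matrix.mulVec, dotProduct, Matrix.of_apply, Pi.zero_apply]
    rw [sum_rw1, if_pos v.2]
    have e : (∀ n, f^[n] v.1 ∈ N) ↔ ∀ n, f^[n] (f v.1) ∈ N := by
      constructor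
      · intro H n; exact H (n + 1)
      · intro H n
        cases n with
        | zero => exact v.2
        | succ n => exact H n
    by_cases h2 : f v.1 ∈ N
    · simp only [h, h2, if_true, e, sub_self]
    · have : ¬ ∀ n, f^[n] (f v.1) ∈ N := fun H => h2 (H 0)
      simp only [h, h2, if_false, e, this, sub_self]

/-- weighted Laplacian on `N` -/
def lap (N : Finset V) (nb : V → Finset V) (c : V → V → ℝ) : Matrix N N ℝ :=
  Matrix.of fun v : N => ∑ x ∈ nb v.1, c v.1 x • rw1 N v.1 x

/-- the matrix tree theorem -/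
theorem det_lap (N : Finset V) (nb : V → Finset V) (c : V → V → ℝ) :
    (lap N nb c).det = ∑ f ∈ For N nb, ∏ v ∈ N, c v (f v) := by
  classical
  rw [lap, det_expand, For, sum_filter]
  refine sum_congr rfl fun f hf => ?_
  split_ifs with h
  · rw [det_rw1_exits N f (mem_Maps.mp hf).1 h, mul_one]
  · rw [det_rw1_not N f h, mul_zero]

lemma lap_mulVec (N : Finset V) (nb : V → Finset V) (c : V → V → ℝ) (h : V → ℝ) (v : N) :
    (lap N nb c *ᵥ fun w : N => h w.1) v =
      ∑ x ∈ nb v.1, c v.1 x * (h v.1 - if x ∈ N then h x else 0) := by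
  simp only [lap, Matrix.mulVec, dotProduct, Matrix.of_apply, Finset.sum_apply, Pi.smul_apply,
    smul_eq_mul, sum_mul]
  rw [sum_comm]
  refine sum_congr rfl fun x _ => ?_
  simp only [mul_assoc]
  rw [← mul_sum, sum_rw1, if_pos v.2]

end Pool.Agent.P.MP_a28080_pr
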