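import Pool.Agent.P.MP_a28080_pr.Heat
import Pool.Agent.P.MP_a28080_pr.Pair

/-! Weighted Green functions and the chain bound on the lattice. -/

namespace Pool.Agent.P.MP_a28080_pr

open Finset

variable {d : ℕ}

/-- weighted Green function -/
noncomputable def Phi (k : ℕ) (v : BCC d) : ℝ := ∑' t : ℕ, ((t : ℝ) + 1) ^ k * hp t v

lemma summable_sq : Summable fun t : ℕ => 1 / ((t : ℝ) + 1) ^ 2 := by
  have := (summable_nat_add_iff 1).mpr (Real.summable_one_div_nat_pow.mpr one_lt_two)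
  simpa using this

lemma term_nonneg (k t : ℕ) (v : BCC d) : 0 ≤ ((t : ℝ) + 1) ^ k * hp t v :=
  mul_nonneg (by positivity) (hp_nonneg _ _)

lemma term_le (hd : d = 20) {k : ℕ} (hk : k ≤ 8) (t : ℕ) (v : BCC d) :
    ((t : ℝ) + 1) ^ k * hp t v ≤ 1024 / ((t : ℝ) + 1) ^ (8 - k) * (1 / ((t : ℝ) + 1) ^ 2) := by
  refine (mul_le_mul_of_nonneg_left (hp_le hd t v) (by positivity)).trans (le_of_eq ?_)
  obtain ⟨j, hj⟩ := Nat.exists_eq_add_of_le hk
  rw [show 8 - k = j by omega, show 10 = k + j + 2 by omega]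
  field_simp
  ring

lemma summable_Phi (hd : d = 20) {k : ℕ} (hk : k ≤ 8) (v : BCC d) :
    Summable fun t : ℕ => ((t : ℝ) + 1) ^ k * hp t v := by
  refine Summable.of_nonneg_of_le (fun t => term_nonneg k t v) (fun t => ?_)
    (summable_sq.mul_left 1024)
  refine (term_le hd hk t v).trans (mul_le_mul_of_nonneg_right ?_ (by positivity))
  exact div_le_self (by norm_num) (one_le_pow₀ (by simp))

lemma Phi_nonneg (k : ℕ) (v : BCC d) : 0 ≤ Phi k v := tsum_nonneg fun t => term_nonneg k t v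

lemma Phi_neg (k : ℕ) (v : BCC d) : Phi k (-v) = Phi k v := by simp [Phi, hp_neg]

lemma Phi_comm (k : ℕ) (u v : BCC d) : Phi k (u - v) = Phi k (v - u) := by
  rw [← Phi_neg, neg_sub]

lemma Phi_mono (hd : d = 20) {j k : ℕ} (h : j ≤ k) (hk : k ≤ 8) (v : BCC d) :
    Phi j v ≤ Phi k v :=
  (summable_Phi hd (h.trans hk) v).tsum_le_tsum (fun t => mul_le_mul_of_nonneg_right
    (pow_le_pow_right₀ (by simp) h) (hp_nonneg _ _)) (summable_Phi hd hk v)

lemma one_le_Phi (hd : d = 20) : 1 ≤ Phi 0 (0 : BCC d) := by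
  have := (summable_Phi hd (Nat.zero_le 8) (0 : BCC d)).le_tsum 0 fun t _ => term_nonneg _ _ _
  simpa [hp_zero, Phi] using this

lemma Phi_sup (hd : d = 20) {k : ℕ} (hk : k ≤ 8) (v : BCC d) :
    ∑ ε, Phi k (v + st ε) ≤ 2 ^ d * Phi k v := by
  have hs := summable_Phi hd hk v
  have hs1 := (summable_nat_add_iff 1).mpr hs
  unfold Phi
  rw [← Summable.tsum_finsetSum fun ε _ => summable_Phi hd hk (v + st ε), hs.tsum_eq_zero_add,
    mul_add, ← tsum_mul_left]
  refine le_trans ?_ (le_add_of_nonneg_left (mul_nonneg (by positivity) (term_nonneg _ _ _)))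
  refine Summable.tsum_le_tsum (fun t => ?_)
    (summable_sum fun ε _ => summable_Phi hd hk (v + st ε)) (hs1.mul_left _)
  rw [← mul_sum, hp_succ, mul_left_comm, mul_inv_cancel_left₀ (by positivity)]
  refine mul_le_mul_of_nonneg_right ?_ (sum_nonneg fun _ _ => hp_nonneg _ _)
  push_cast
  gcongr
  linarith

lemma Phi_nb (hd : d = 20) {k : ℕ} (hk : k ≤ 8) (v w : BCC d) :
    ∑ x ∈ nbL v, Phi k (x - w) ≤ 2 ^ d * Phi k (v - w) := by
  rw [sum_nbL]
  simpa only [add_sub_right_comm] using Phi_sup hd hk (v - w)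

lemma cauchy_prod {a b : ℕ → ℝ} (ha : Summable a) (hb : Summable b) (a0 : ∀ t, 0 ≤ a t)
    (b0 : ∀ t, 0 ≤ b t) : (Summable fun n => ∑ p ∈ antidiagonal n, a p.1 * b p.2) ∧
      (∑' t, a t) * ∑' t, b t = ∑' n, ∑ p ∈ antidiagonal n, a p.1 * b p.2 := by
  have h := ha.mul_of_nonneg hb a0 b0
  exact ⟨summable_sum_mul_antidiagonal_of_summable_mul h,
    ha.tsum_mul_tsum_eq_tsum_sum_antidiagonal hb h⟩

lemma Phi_conv (hd : d = 20) {j k : ℕ} (h : j + k + 1 ≤ 8) (W : Finset (BCC d)) (x y : BCC d) :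
    ∑ w ∈ W, Phi j (x - w) * Phi k (w - y) ≤ Phi (j + k + 1) (x - y) := by
  have s3 := fun w => cauchy_prod (summable_Phi hd (by omega : j ≤ 8) (x - w))
    (summable_Phi hd (by omega : k ≤ 8) (w - y)) (fun t => term_nonneg _ _ _)
    fun t => term_nonneg _ _ _
  have s4 := fun w => (s3 w).1
  unfold Phi
  rw [sum_congr rfl fun w _ => (s3 w).2, ← Summable.tsum_finsetSum fun w _ => s4 w]
  refine Summable.tsum_le_tsum (fun n => ?_) (summable_sum fun w _ => s4 w) (summable_Phi hd h _)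
  rw [sum_comm]
  calc _ ≤ ∑ _p ∈ antidiagonal n, ((n : ℝ) + 1) ^ (j + k) * hp n (x - y) := by
        refine sum_le_sum fun p hp' => ?_
        have hn := mem_antidiagonal.mp hp'
        have e : ∀ w, ((p.1 : ℝ) + 1) ^ j * hp p.1 (x - w) * (((p.2 : ℝ) + 1) ^ k * hp p.2 (w - y))
            = ((p.1 : ℝ) + 1) ^ j * ((p.2 : ℝ) + 1) ^ k * (hp p.1 (x - w) * hp p.2 (w - y)) :=
          fun w => by ring
        simp only [e]
        rw [← mul_sum, pow_add]
        have h1 : (p.1 : ℝ) ≤ n := by exact_mod_cast (by omega)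
        have h2 : (p.2 : ℝ) ≤ n := by exact_mod_cast (by omega)
        refine mul_le_mul (by gcongr) (hn ▸ hp_ck _ _ W x y)
          (sum_nonneg fun _ _ => mul_nonneg (hp_nonneg _ _) (hp_nonneg _ _)) (by positivity)
    _ = _ := by
        rw [sum_const, Nat.card_antidiagonal, nsmul_eq_mul]
        push_cast; ring

lemma Phi_tail (hd : d = 20) : ∃ C : ℝ, ∀ (L : ℕ) (u v : BCC d), ¬ near L u v →
    Phi 5 (v - u) ≤ C / ((L : ℝ) + 1) ^ 3 := by
  refine ⟨1024 * ∑' t : ℕ, 1 / ((t : ℝ) + 1) ^ 2, fun L u v h => ?_⟩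
  rw [mul_div_right_comm, ← tsum_mul_left]
  refine Summable.tsum_le_tsum (fun t => ?_) (summable_Phi hd (by norm_num) _)
    (summable_sq.mul_left _)
  by_cases ht : t ≤ L
  · rw [hp_far, mul_zero]
    · positivity
    · intro h'
      exact h fun j => (by simpa using h' j : (v.1 j - u.1 j).natAbs ≤ t).trans ht
  · refine (term_le hd (by norm_num) t _).trans (mul_le_mul_of_nonneg_right ?_ (by positivity))
    have : (L : ℝ) ≤ t := by exact_mod_cast (by omega)
    norm_num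
    gcongr

lemma conv_nb (hd : d = 20) {j k : ℕ} (h : j + k + 1 ≤ 8) (W : Finset (BCC d)) (x y : BCC d) :
    ∑ a ∈ W, ∑ b ∈ nbL a, Phi j (x - a) * Phi k (b - y) ≤ 2 ^ d * Phi (j + k + 1) (x - y) := by
  refine le_trans ?_ (mul_le_mul_of_nonneg_left (Phi_conv hd h W x y) (by positivity))
  rw [mul_sum]
  refine sum_le_sum fun a _ => ?_
  rw [← mul_sum, mul_left_comm]
  exact mul_le_mul_of_nonneg_left (Phi_nb hd (by omega) a y) (Phi_nonneg _ _)

lemma chain_lattice (hd : d = 20) (N : Finset (BCC d)) (q q' : BCC d) :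
    nf (For N nbL) (Chain nbL q q') ≤ 3 * (2 ^ d) ^ 2 * Phi 5 (q - q') * (For N nbL).card := by
  have h := chain_bound (N := N) (W := insert q (insert q' (N ∪ N.biUnion nbL))) (nb := nbL)
    (fun x hx => by simp [hx])
    (fun x hx y hy => by
      simp only [mem_insert, mem_union, mem_biUnion]
      exact Or.inr (Or.inr (Or.inr ⟨x, hx, hy⟩))) nbL_symm
    (fun x w => Phi 0 (x - w)) (fun _ _ => Phi_nonneg _ _) (fun w => by simpa using one_le_Phi hd)
    (fun w v => by
      rw [sum_sub_distrib, sum_const, card_nbL, nsmul_eq_mul]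
      push_cast
      linarith [Phi_nb hd (Nat.zero_le 8) v w])
    (fun x y => Phi 1 (x - y))
    (fun W x y => by
      simpa only [Phi_comm 0 y] using Phi_conv hd (j := 0) (k := 0) (by norm_num) W x y)
    (q := q) (q' := q') (by simp) (by simp)
  refine h.trans (mul_le_mul_of_nonneg_right ?_ (Nat.cast_nonneg _))
  generalize insert q (insert q' (N ∪ N.biUnion nbL)) = W
  have hD : (1 : ℝ) ≤ 2 ^ d := one_le_pow₀ (by norm_num)
  have h0 := Phi_nonneg 5 (q - q')
  have h1 := Phi_mono hd (by norm_num : 1 ≤ 5) (by norm_num) (q - q')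
  have h2 := (conv_nb hd (j := 1) (k := 1) (by norm_num) W q q').trans
    (mul_le_mul_of_nonneg_left (Phi_mono hd (by norm_num : 1 + 1 + 1 ≤ 5) (by norm_num) (q - q'))
      (by positivity))
  have h3 : ∑ a ∈ W, ∑ u ∈ nbL a, ∑ b ∈ W, ∑ v ∈ nbL b,
      Phi 1 (q - a) * Phi 1 (b - q') * Phi 1 (u - v) ≤ 2 ^ d * (2 ^ d * Phi 5 (q - q')) := by
    refine le_trans ?_ (mul_le_mul_of_nonneg_left (conv_nb hd (j := 1) (k := 3) (by norm_num)
      W q q') (by positivity))
    simp only [mul_sum]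
    refine sum_le_sum fun a _ => sum_le_sum fun u _ => ?_
    have := mul_le_mul_of_nonneg_left (conv_nb hd (j := 1) (k := 1) (by norm_num) W q' u)
      (Phi_nonneg 1 (q - a))
    rw [mul_left_comm, Phi_comm _ q' u] at this
    refine le_trans (le_of_eq ?_) this
    simp only [mul_sum]
    refine sum_congr rfl fun b _ => sum_congr rfl fun v _ => ?_
    rw [Phi_comm _ q' b, Phi_comm _ v u, mul_assoc]
  have h4 := mul_le_mul_of_nonneg_right hD h0
  have h5 := mul_le_mul_of_nonneg_right hD (mul_nonneg (zero_le_one.trans hD) h0)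
  refine (add_le_add h1 (add_le_add h2 h3)).trans ?_
  generalize (2 : ℝ) ^ d = D at h4 h5 ⊢
  generalize Phi 5 (q - q') = P at h4 h5 ⊢
  linarith [show 3 * D ^ 2 * P = 3 * (D * (D * P)) by ring]

end Pool.Agent.P.MP_a28080_pr
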