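import Pool.Agent.P.MP_a28080_pr.Forest

/-! Harmonicity of the root distribution and the maximum principle. -/

namespace Pool.Agent.P.MP_a28080_pr

open Finset Matrix

variable {V : Type*} [DecidableEq V]

/-- `w` lies on the orbit of `u` -/
def Anc (f : V → V) (u w : V) : Prop := ∃ n, f^[n] u = w

open Classical in
/-- number of forests in which `w` is on the orbit of `u` -/
noncomputable def cnt (N : Finset V) (nb : V → Finset V) (w u : V) : ℝ :=
  ((For N nb).filter fun f => Anc f u w).card

lemma cnt_off {N : Finset V} {nb : V → Finset V} (w : V) {x : V} (hx : x ∉ N) :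
    cnt N nb w x = if x = w then ((For N nb).card : ℝ) else 0 := by
  classical
  unfold cnt
  split_ifs with h
  · rw [filter_true_of_mem]
    intro f _
    exact ⟨0, h⟩
  · rw [filter_false_of_mem]
    · simp
    · rintro f hf ⟨n, hn⟩
      rw [iter_fix (mem_For.mp hf).1 hx] at hn
      exact h hn

lemma cramer_mulVec' {n : Type*} [Fintype n] [DecidableEq n] (M : Matrix n n ℝ) (h : n → ℝ) :
    Matrix.cramer M (M *ᵥ h) = M.det • h := by
  rw [Matrix.cramer_eq_adjugate_mulVec, Matrix.mulVec_mulVec, Matrix.adjugate_mul,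
    Matrix.smul_mulVec, Matrix.one_mulVec]

lemma cramer_lap (N : Finset V) (nb : V → Finset V) {w : V} (hw : w ∉ N) (u : N) :
    Matrix.cramer (lap N nb fun _ _ => 1) (fun v : N => ∑ x ∈ nb v.1, if x = w then 1 else 0) u
      = cnt N nb w u.1 := by
  classical
  rw [Matrix.cramer_apply]
  have e1 : (lap N nb fun _ _ => 1).updateCol u
      (fun v : N => ∑ x ∈ nb v.1, if x = w then (1 : ℝ) else 0) =
      Matrix.of fun v : N => ∑ x ∈ nb v.1, (fun _ _ => (1 : ℝ)) v.1 x •
        (fun v x => Function.update (rw1 N v x) u (if x = w then (1 : ℝ) else 0)) v.1 x := by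
    ext v y
    rw [Matrix.updateCol_apply]
    simp only [lap, Matrix.of_apply, Finset.sum_apply, one_smul, Function.update_apply]
    split_ifs <;> rfl
  rw [e1, det_expand N nb (fun _ _ => (1 : ℝ))
    (fun v x => Function.update (rw1 N v x) u (if x = w then (1 : ℝ) else 0)),
    cnt, For, filter_filter, card_filter]
  push_cast
  refine sum_congr rfl fun f hf => ?_
  have h1 := (mem_Maps.mp hf).1
  let h : V → ℝ := fun v => if Anc f v w then 1 else 0
  have e2 : (Matrix.of fun v : N =>
      Function.update (rw1 N v.1 (f v.1)) u (if f v.1 = w then (1 : ℝ) else 0)) =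
      (Matrix.of fun v : N => rw1 N v.1 (f v.1)).updateCol u
        ((Matrix.of fun v : N => rw1 N v.1 (f v.1)) *ᵥ fun v : N => h v.1) := by
    ext v y
    rw [Matrix.updateCol_apply]
    simp only [Matrix.of_apply, Function.update_apply]
    split_ifs with h2 h3
    · simp only [Matrix.mulVec, dotProduct, Matrix.of_apply]
      rw [sum_rw1, if_pos v.2, h3, if_neg hw]
      have : Anc f v.1 w := ⟨1, h3⟩
      simp [h, this]
    · simp only [Matrix.mulVec, dotProduct, Matrix.of_apply]
      rw [sum_rw1, if_pos v.2]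
      have e : Anc f v.1 w ↔ Anc f (f v.1) w := by
        constructor
        · rintro ⟨n, hn⟩
          cases n with
          | zero => exact absurd (hn ▸ v.2) hw
          | succ n => exact ⟨n, hn⟩
        · rintro ⟨n, hn⟩; exact ⟨n + 1, hn⟩
      by_cases h4 : f v.1 ∈ N
      · simp only [h, h4, if_true, e, sub_self]
      · have : ¬ Anc f (f v.1) w := by
          rintro ⟨n, hn⟩
          rw [iter_fix h1 h4] at hn
          exact h3 hn
        simp only [h, h4, if_false, e, this, sub_self]
    · rfl
  rw [e2, ← Matrix.cramer_apply, cramer_mulVec']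
  simp only [prod_const_one, one_mul, Pi.smul_apply, smul_eq_mul]
  by_cases h5 : Exits N f
  · rw [det_rw1_exits N f h1 h5]
    simp [h, h5]
  · rw [det_rw1_not N f h5]
    simp [h5]

lemma det_lap_one (N : Finset V) (nb : V → Finset V) :
    (lap N nb fun _ _ => 1).det = (For N nb).card := by
  rw [det_lap]; simp

/-- the root distribution is harmonic -/
lemma cnt_harm (N : Finset V) (nb : V → Finset V) {w : V} (hw : w ∉ N) {v : V} (hv : v ∈ N) :
    ∑ x ∈ nb v, (cnt N nb w v - cnt N nb w x) = 0 := by
  have h := congrFun (Matrix.mulVec_cramer (lap N nb fun _ _ => 1)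
    (fun v : N => ∑ x ∈ nb v.1, if x = w then 1 else 0)) ⟨v, hv⟩
  have e : Matrix.cramer (lap N nb fun _ _ => 1)
      (fun v : N => ∑ x ∈ nb v.1, if x = w then 1 else 0) = fun u : N => cnt N nb w u.1 :=
    funext fun u => cramer_lap N nb hw u
  rw [e, lap_mulVec, det_lap_one] at h
  simp only [one_mul, Pi.smul_apply, smul_eq_mul, mul_sum] at h
  rw [← sub_eq_zero, ← sum_sub_distrib] at h
  rw [← h]
  refine sum_congr rfl fun x _ => ?_
  by_cases hx : x ∈ N
  · have : x ≠ w := fun h => hw (h ▸ hx)
    simp [hx, this]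
  · rw [cnt_off w hx]
    by_cases h2 : x = w <;> simp [hx, h2, hw]

/-- maximum principle -/
lemma max_principle {N : Finset V} {nb : V → Finset V} {f : V → V} (hf : f ∈ For N nb)
    (g : V → ℝ) (h0 : ∀ v, v ∉ N → g v ≤ 0)
    (hs : ∀ v ∈ N, ∑ x ∈ nb v, (g v - g x) ≤ 0) (u : V) : g u ≤ 0 := by
  by_contra hu
  have huN : u ∈ N := by
    by_contra h; exact hu (h0 u h)
  obtain ⟨m, hm, hmax⟩ := Finset.exists_max_image N g ⟨u, huN⟩
  have hpos : 0 < g m := lt_of_lt_of_le (not_le.mp hu) (hmax u huN)
  have hall : ∀ x, g x ≤ g m := by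
    intro x
    by_cases hx : x ∈ N
    · exact hmax x hx
    · exact (h0 x hx).trans hpos.le
  obtain ⟨-, h2, h3⟩ := mem_For.mp hf
  have key : ∀ n, g (f^[n] m) = g m := by
    intro n
    induction n with
    | zero => rfl
    | succ n ih =>
      have hN : f^[n] m ∈ N := by
        by_contra h
        have := h0 _ h
        linarith
      have hz := (Finset.sum_eq_zero_iff_of_nonneg (s := nb (f^[n] m))
        (f := fun x => g (f^[n] m) - g x) (fun x _ => by rw [ih]; linarith [hall x])).mp
        (le_antisymm (hs _ hN) (sum_nonneg fun x _ => by rw [ih]; linarith [hall x]))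
      have := hz _ (h2 _ hN)
      rw [Function.iterate_succ_apply']
      linarith
  obtain ⟨n, hn⟩ := h3 m
  have := h0 _ hn
  rw [key] at this
  linarith

/-- bound for the root distribution by a superharmonic function -/
lemma cnt_le (N : Finset V) (nb : V → Finset V) {w : V} (hw : w ∉ N) (F : V → ℝ)
    (hF0 : ∀ x, 0 ≤ F x) (hFw : 1 ≤ F w) (hsup : ∀ v, 0 ≤ ∑ x ∈ nb v, (F v - F x)) (u : V) :
    cnt N nb w u ≤ F u * (For N nb).card := by
  classical
  rcases (For N nb).eq_empty_or_nonempty with h | ⟨f, hf⟩
  · simp [cnt, h]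
  have hZ : (0 : ℝ) ≤ (For N nb).card := Nat.cast_nonneg _
  have := max_principle hf (fun x => cnt N nb w x - F x * (For N nb).card) ?_ ?_ u
  · linarith
  · intro v hv
    simp only [cnt_off w hv]
    split_ifs with h
    · subst h; nlinarith
    · have := hF0 v; nlinarith
  · intro v hv
    have e : ∑ x ∈ nb v, ((cnt N nb w v - F v * (For N nb).card) -
        (cnt N nb w x - F x * (For N nb).card)) =
        ∑ x ∈ nb v, (cnt N nb w v - cnt N nb w x) -
          (∑ x ∈ nb v, (F v - F x)) * (For N nb).card := by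
      rw [sum_mul, ← sum_sub_distrib]
      exact sum_congr rfl fun x _ => by ring
    rw [e, cnt_harm N nb hw hv]
    have := hsup v
    nlinarith

end Pool.Agent.P.MP_a28080_pr
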