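import Pool.Agent.P.MP_a28080_pr.Lattice

/-! The heat kernel of the lattice walk. -/

namespace Pool.Agent.P.MP_a28080_pr

open Finset

/-- heat kernel of simple random walk on the integers -/
noncomputable def hq : ℕ → ℤ → ℝ
  | 0, k => if k = 0 then 1 else 0
  | t + 1, k => (hq t (k + 1) + hq t (k - 1)) / 2

lemma hq_nonneg (t : ℕ) (k : ℤ) : 0 ≤ hq t k := by
  induction t generalizing k with
  | zero => simp only [hq]; split_ifs <;> norm_num
  | succ t ih => simp only [hq]; have := ih (k + 1); have := ih (k - 1); positivity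

lemma hq_neg (t : ℕ) (k : ℤ) : hq t (-k) = hq t k := by
  induction t generalizing k with
  | zero => simp [hq]
  | succ t ih =>
    simp only [hq]
    rw [← ih (k + 1), ← ih (k - 1), add_comm (hq t _)]
    congr 3 <;> ring

lemma hq_far {t : ℕ} {k : ℤ} (h : t < k.natAbs) : hq t k = 0 := by
  induction t generalizing k with
  | zero => simp only [hq]; rw [if_neg]; omega
  | succ t ih => simp only [hq]; rw [ih (by omega), ih (by omega)]; simp

lemma hq_odd {t : ℕ} {k : ℤ} (h : (k + t) % 2 = 1) : hq t k = 0 := by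
  induction t generalizing k with
  | zero => simp only [hq]; rw [if_neg]; omega
  | succ t ih => simp only [hq]; rw [ih (by omega), ih (by omega)]; simp

lemma hq_eq (t j : ℕ) : hq t (2 * j - t) = (t.choose j : ℝ) / 2 ^ t := by
  induction t generalizing j with
  | zero => cases j <;> simp [hq]; omega
  | succ t ih =>
    simp only [hq]
    have e1 : (2 * j - (t + 1 : ℕ) + 1 : ℤ) = 2 * j - t := by push_cast; ring
    rw [e1, ih]
    cases j with
    | zero =>
      rw [hq_far (by omega)]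
      simp [pow_succ]; ring
    | succ j =>
      have e2 : (2 * (j + 1 : ℕ) - (t + 1 : ℕ) - 1 : ℤ) = 2 * j - t := by push_cast; ring
      rw [e2, ih, Nat.choose_succ_succ']
      push_cast; ring

lemma cb_le (m : ℕ) : ((Nat.centralBinom m : ℝ) / 4 ^ m) ^ 2 * (2 * m + 1) ≤ 1 := by
  induction m with
  | zero => simp
  | succ m ih =>
    have h : ((m : ℝ) + 1) * Nat.centralBinom (m + 1) = 2 * (2 * m + 1) * Nat.centralBinom m := by
      exact_mod_cast Nat.succ_mul_centralBinom_succ m
    have e : (Nat.centralBinom (m + 1) : ℝ) / 4 ^ (m + 1) =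
        (Nat.centralBinom m : ℝ) / 4 ^ m * ((2 * m + 1) / (2 * m + 2)) := by
      field_simp
      linear_combination 2 * 4 ^ m * h
    rw [e, mul_pow]
    refine le_trans ?_ ih
    rw [mul_assoc]
    refine mul_le_mul_of_nonneg_left ?_ (sq_nonneg _)
    push_cast
    rw [div_pow, div_mul_eq_mul_div, div_le_iff₀ (by positivity)]
    nlinarith [(Nat.cast_nonneg m : (0 : ℝ) ≤ m)]

lemma hq_even_le (m : ℕ) (k : ℤ) : hq (2 * m) k ≤ (Nat.centralBinom m : ℝ) / 4 ^ m := by
  by_cases h1 : 2 * m < k.natAbs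
  · rw [hq_far h1]; positivity
  by_cases h2 : (k + (2 * m : ℕ)) % 2 = 1
  · rw [hq_odd h2]; positivity
  obtain ⟨j, hj⟩ : ∃ j : ℕ, k = 2 * j - (2 * m : ℕ) := ⟨((k + 2 * m) / 2).toNat, by omega⟩
  rw [hj, hq_eq, pow_mul, Nat.centralBinom]
  have := Nat.choose_le_middle j (2 * m)
  rw [Nat.mul_div_cancel_left _ (by norm_num)] at this
  norm_num
  gcongr

lemma hq_sq_le (t : ℕ) (k : ℤ) : hq t k ^ 2 ≤ 2 / (t + 1) := by
  have key : hq t k ≤ (Nat.centralBinom (t / 2) : ℝ) / 4 ^ (t / 2) := by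
    rcases Nat.even_or_odd' t with ⟨m, rfl | rfl⟩
    · rw [Nat.mul_div_cancel_left _ (by norm_num)]; exact hq_even_le m k
    · rw [show (2 * m + 1) / 2 = m by omega]
      simp only [hq]
      linarith [hq_even_le m (k + 1), hq_even_le m (k - 1)]
  have h2 := cb_le (t / 2)
  have h3 : (t : ℝ) + 1 ≤ 2 * (2 * (t / 2 : ℕ) + 1) := by exact_mod_cast (by omega)
  have h4 := pow_le_pow_left₀ (hq_nonneg t k) key 2
  rw [le_div_iff₀ (by positivity)]
  nlinarith [sq_nonneg (hq t k)]

variable {d : ℕ}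

/-- heat kernel of the lattice walk -/
noncomputable def hp (t : ℕ) (v : BCC d) : ℝ := ∏ j, hq t (v.1 j)

lemma hp_nonneg (t : ℕ) (v : BCC d) : 0 ≤ hp t v := prod_nonneg fun _ _ => hq_nonneg _ _

lemma hp_neg (t : ℕ) (v : BCC d) : hp t (-v) = hp t v := by
  simp [hp, hq_neg]

lemma hp_zero (v : BCC d) : hp 0 v = if v = 0 then 1 else 0 := by
  simp only [hp, hq]
  split_ifs with h
  · subst h; simp
  · obtain ⟨j, hj⟩ : ∃ j, v.1 j ≠ 0 := by
      by_contra hc
      simp only [ne_eq, not_exists, not_not] at hc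
      exact h (Subtype.ext (funext hc))
    exact prod_eq_zero (mem_univ j) (if_neg hj)

lemma hp_succ (t : ℕ) (v : BCC d) : hp (t + 1) v = (2 ^ d)⁻¹ * ∑ ε, hp t (v + st ε) := by
  have e : ∀ j, hq (t + 1) (v.1 j) =
      ∑ b : Bool, 2⁻¹ * hq t (v.1 j + if b then 1 else -1) := by
    intro j
    simp [hq, sub_eq_add_neg]; ring
  simp only [hp, e]
  rw [Finset.prod_univ_sum, Fintype.piFinset_univ, mul_sum]
  refine sum_congr rfl fun ε _ => ?_
  rw [prod_mul_distrib]
  simp [st_val]

lemma hp_far {t : ℕ} {v : BCC d} (h : ¬ near t 0 v) : hp t v = 0 := by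
  simp only [near, not_forall, not_le] at h
  obtain ⟨j, hj⟩ := h
  exact prod_eq_zero (mem_univ j) (hq_far (by simpa using hj))

lemma hp_le (hd : d = 20) (t : ℕ) (v : BCC d) : hp t v ≤ 1024 / (t + 1) ^ 10 := by
  have h : hp t v ^ 2 ≤ (1024 / (t + 1) ^ 10) ^ 2 := by
    rw [hp, ← prod_pow]
    refine (prod_le_prod (fun _ _ => sq_nonneg _) fun j _ => hq_sq_le t (v.1 j)).trans ?_
    rw [prod_const, card_univ, Fintype.card_fin, hd]
    apply le_of_eq
    field_simp
    norm_num
  exact (pow_le_pow_iff_left₀ (hp_nonneg t v) (by positivity) two_ne_zero).mp h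

lemma hp_ck (s t : ℕ) (W : Finset (BCC d)) (x y : BCC d) :
    ∑ w ∈ W, hp s (x - w) * hp t (w - y) ≤ hp (s + t) (x - y) := by
  induction s generalizing x with
  | zero =>
    simp only [hp_zero, sub_eq_zero, ite_mul, one_mul, zero_mul, sum_ite_eq, zero_add]
    split_ifs
    · exact le_rfl
    · exact hp_nonneg _ _
  | succ s ih =>
    rw [show s + 1 + t = s + t + 1 by omega]
    simp only [hp_succ, mul_assoc, sum_mul]
    rw [← mul_sum, sum_comm]
    refine mul_le_mul_of_nonneg_left (sum_le_sum fun ε _ => ?_) (by positivity)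
    have := ih (x + st ε)
    simpa only [add_sub_right_comm] using this

end Pool.Agent.P.MP_a28080_pr
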