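import Pool.Agent.P.MP_a28080_pr.Defs

/-! The body centred cubic lattice. -/

namespace Pool.Agent.P.MP_a28080_pr

open Finset

/-- points with all coordinates of the same parity -/
def BCC (d : ℕ) : AddSubgroup (Fin d → ℤ) where
  carrier := {v | ∀ i j, v i % 2 = v j % 2}
  add_mem' := fun {a b} ha hb i j => by
    have := ha i j; have := hb i j; simp only [Pi.add_apply]; omega
  zero_mem' := fun _ _ => rfl
  neg_mem' := fun {a} ha i j => by have := ha i j; simp only [Pi.neg_apply]; omega

variable {d : ℕ}

lemma par (v : BCC d) (i j : Fin d) : v.1 i % 2 = v.1 j % 2 := v.2 i j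

instance : DecidablePred (· ∈ BCC d) := fun v =>
  inferInstanceAs (Decidable (∀ i j, v i % 2 = v j % 2))

/-- the steps -/
def st (ε : Fin d → Bool) : BCC d :=
  ⟨fun j => if ε j then 1 else -1, fun i j => by dsimp only; split_ifs <;> rfl⟩

lemma st_val (ε : Fin d → Bool) (j : Fin d) : (st ε).1 j = if ε j then 1 else -1 := rfl

lemma st_cases (ε : Fin d → Bool) (j : Fin d) : (st ε).1 j = 1 ∨ (st ε).1 j = -1 := by
  rw [st_val]; split_ifs <;> simp

lemma st_inj : Function.Injective (st : (Fin d → Bool) → BCC d) := by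
  intro ε ε' h
  funext j
  have := congrFun (congrArg Subtype.val h) j
  simp only [st_val] at this
  cases h1 : ε j <;> cases h2 : ε' j <;> simp_all

lemma st_not (ε : Fin d → Bool) : st (fun j => !ε j) = - st ε := by
  ext j
  simp only [st_val, AddSubgroup.coe_neg, Pi.neg_apply]
  cases ε j <;> simp

/-- neighbours -/
def nbL (v : BCC d) : Finset (BCC d) := univ.image fun ε => v + st ε

lemma sum_nbL (v : BCC d) (F : BCC d → ℝ) : ∑ x ∈ nbL v, F x = ∑ ε, F (v + st ε) :=
  sum_image fun _ _ _ _ h => st_inj (add_left_cancel h)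

lemma card_nbL (v : BCC d) : (nbL v).card = 2 ^ d := by
  rw [nbL, card_image_of_injective _ fun _ _ h => st_inj (add_left_cancel h)]
  simp

lemma mem_nbL {v x : BCC d} : x ∈ nbL v ↔ ∀ j, (x.1 j - v.1 j).natAbs = 1 := by
  simp only [nbL, mem_image, mem_univ, true_and]
  constructor
  · rintro ⟨ε, rfl⟩ j
    have := st_cases ε j
    simp only [AddSubgroup.coe_add, Pi.add_apply]
    omega
  · intro h
    refine ⟨fun j => decide (x.1 j - v.1 j = 1), ?_⟩
    ext j
    have := h j
    simp only [AddSubgroup.coe_add, Pi.add_apply, st_val, decide_eq_true_eq]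
    split_ifs <;> omega

lemma add_st_mem (v : BCC d) (ε : Fin d → Bool) : v + st ε ∈ nbL v :=
  mem_image.mpr ⟨ε, mem_univ _, rfl⟩

lemma nbL_symm (x y : BCC d) (h : x ∈ nbL y) : y ∈ nbL x := by
  rw [mem_nbL] at h ⊢
  intro j; have := h j; omega

/-- sup distance at most `n` -/
def near (n : ℕ) (u v : BCC d) : Prop := ∀ j, (v.1 j - u.1 j).natAbs ≤ n

lemma near.symm {n : ℕ} {u v : BCC d} (h : near n u v) : near n v u :=
  fun j => by have := h j; omega

lemma near.trans {m n : ℕ} {u v w : BCC d} (h : near m u v) (h' : near n v w) :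
    near (m + n) u w := fun j => by have := h j; have := h' j; omega

lemma near.mono {m n : ℕ} {u v : BCC d} (h : near m u v) (h' : m ≤ n) : near n u v :=
  fun j => (h j).trans h'

lemma near_zero {u v : BCC d} : near 0 u v ↔ u = v := by
  refine ⟨fun h => ?_, fun h j => by simp [h]⟩
  ext j; have := h j; omega

lemma near_refl (n : ℕ) (u : BCC d) : near n u u := (near_zero.mpr rfl).mono (Nat.zero_le _)

lemma near_of_nb {u v : BCC d} (h : v ∈ nbL u) : near 1 u v := fun j => (mem_nbL.mp h j).le

lemma exists_near (u v : BCC d) : ∃ n, near n u v :=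
  ⟨univ.sup fun j => (v.1 j - u.1 j).natAbs,
    fun j => le_sup (f := fun j => (v.1 j - u.1 j).natAbs) (mem_univ j)⟩

lemma near_step {n : ℕ} {u v : BCC d} (h : near (n + 1) u v) (hne : u ≠ v) :
    ∃ x ∈ nbL u, near n x v := by
  refine ⟨_, add_st_mem u fun j => decide (u.1 j < v.1 j), fun j => ?_⟩
  have h1 := h j
  simp only [AddSubgroup.coe_add, Pi.add_apply, st_val, decide_eq_true_eq]
  by_cases hn : n = 0
  · obtain ⟨i, hi⟩ : ∃ i, u.1 i ≠ v.1 i := by
      by_contra hc
      simp only [ne_eq, not_exists, not_not] at hc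
      exact hne (Subtype.ext (funext hc))
    have := h i
    have := par u i j
    have := par v i j
    split_ifs <;> omega
  · split_ifs <;> omega

/-- boxes -/
noncomputable def box (v : BCC d) (n : ℕ) : Finset (BCC d) :=
  (Fintype.piFinset fun j => Icc (v.1 j - n) (v.1 j + n)).subtype (· ∈ BCC d)

lemma mem_box {v w : BCC d} {n : ℕ} : w ∈ box v n ↔ near n v w := by
  simp only [box, mem_subtype, Fintype.mem_piFinset, mem_Icc, near]
  exact forall_congr' fun j => by omega

variable [NeZero d]

/-- the lattice graph -/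
def bccG (d : ℕ) [NeZero d] : SimpleGraph (BCC d) where
  Adj u v := v ∈ nbL u
  symm := ⟨fun _ _ h => nbL_symm _ _ h⟩
  loopless := ⟨fun v h => by have := mem_nbL.mp h 0; simp at this⟩

lemma bccG_adj {u v : BCC d} : (bccG d).Adj u v ↔ v ∈ nbL u := Iff.rfl

lemma walk_of_near {n : ℕ} {u v : BCC d} (h : near n u v) :
    ∃ p : (bccG d).Walk u v, p.length ≤ n ∧ ∀ x ∈ p.support, near n x v := by
  induction n generalizing u with
  | zero =>
    obtain rfl := near_zero.mp h
    exact ⟨.nil, le_rfl, by simpa using h⟩
  | succ n ih =>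
    by_cases hne : u = v
    · subst hne
      exact ⟨.nil, Nat.zero_le _, by simpa using h⟩
    · obtain ⟨x, hx, hn⟩ := near_step h hne
      obtain ⟨p, hp, hp2⟩ := ih hn
      refine ⟨.cons (bccG_adj.mpr hx) p, by simpa using hp, fun y hy => ?_⟩
      simp only [SimpleGraph.Walk.support_cons, List.mem_cons] at hy
      rcases hy with rfl | hy
      · exact h
      · exact (hp2 y hy).mono (Nat.le_succ n)

lemma near_of_walk {u v : BCC d} (p : (bccG d).Walk u v) : near p.length u v := by
  induction p with
  | nil => exact near_refl _ _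
  | cons h p ih =>
    rw [SimpleGraph.Walk.length_cons, add_comm]
    exact (near_of_nb h).trans ih

lemma bccG_conn : (bccG d).Connected := by
  refine ⟨fun u v => ?_⟩
  obtain ⟨n, hn⟩ := exists_near u v
  obtain ⟨p, -⟩ := walk_of_near hn
  exact ⟨p⟩

lemma dist_le_iff {n : ℕ} {u v : BCC d} : (bccG d).dist u v ≤ n ↔ near n u v := by
  constructor
  · intro h
    obtain ⟨p, hp⟩ := bccG_conn.exists_walk_length_eq_dist u v
    exact (near_of_walk p).mono (hp ▸ h)
  · intro h
    obtain ⟨p, hp, -⟩ := walk_of_near h
    exact (SimpleGraph.dist_le p).trans hp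

/-- the diagonal line -/
def ell (t : ℤ) : BCC d := ⟨fun _ => t, fun _ _ => rfl⟩

omit [NeZero d] in
lemma ell_val (t : ℤ) (j : Fin d) : (ell t : BCC d).1 j = t := rfl

lemma ell_inj : Function.Injective (ell : ℤ → BCC d) :=
  fun _ _ h => congrFun (congrArg Subtype.val h) 0

lemma box_exh : Exhaustion (bccG d) (box 0) := by
  refine ⟨fun m n h x hx => mem_box.mpr ((mem_box.mp hx).mono h), fun v => ?_, fun n => ?_⟩
  · obtain ⟨n, hn⟩ := exists_near 0 v
    exact ⟨n, mem_box.mpr hn⟩
  · have h0 : (0 : BCC d) ∈ ((box 0 n : Finset (BCC d)) : Set (BCC d)) :=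
      mem_coe.mpr (mem_box.mpr (near_refl _ _))
    rw [SimpleGraph.connected_iff_exists_forall_reachable]
    refine ⟨⟨0, h0⟩, fun w => ?_⟩
    obtain ⟨p, -, hp⟩ := walk_of_near (mem_box.mp w.2).symm
    exact (p.induce _ fun x hx => mem_box.mpr (hp x hx).symm).reachable.symm

lemma bccG_dim : DimTrans (bccG d) d := by
  refine ⟨inferInstance, Infinite.of_injective _ ell_inj, bccG_conn, fun v => ?_, fun u v => ?_,
    (1 / 2) ^ d, 3 ^ d, by positivity, by gcongr; norm_num, fun v n hn => ?_⟩
  · exact (nbL v).finite_toSet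
  · refine ⟨⟨Equiv.addRight (v - u), ?_⟩, (add_sub_cancel u v : u + (v - u) = v)⟩
    intro a b
    simp [bccG_adj, mem_nbL]
  · have e : gball (bccG d) v n = box v n := by
      ext w; simp [gball, dist_le_iff, mem_box]
    rw [e, Set.ncard_coe_finset]
    constructor
    · have h : (Fintype.piFinset fun _ : Fin d => range (n / 2 + 1)).card ≤ (box v n).card := by
        refine card_le_card_of_injOn
          (fun k => v + ⟨fun j => 2 * (k j : ℤ), fun i j => by dsimp only; omega⟩) ?_ ?_
        · intro k hk
          simp only [Fintype.coe_piFinset, Set.mem_pi, Set.mem_univ, coe_range, Set.mem_Iio,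
            forall_true_left] at hk
          refine mem_coe.mpr (mem_box.mpr fun j => ?_)
          have := hk j
          simp only [AddSubgroup.coe_add, Pi.add_apply]
          omega
        · intro k _ k' _ h
          funext j
          have := congrFun (congrArg Subtype.val (add_left_cancel h)) j
          simp only at this
          omega
      rw [Fintype.card_piFinset] at h
      simp only [card_range, prod_const, card_univ, Fintype.card_fin] at h
      refine le_trans ?_ (by exact_mod_cast h : (((n / 2 + 1) ^ d : ℕ) : ℝ) ≤ _)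
      rw [← mul_pow]
      push_cast
      gcongr
      have : (n : ℝ) ≤ ((2 * (n / 2) + 1 : ℕ) : ℝ) := by exact_mod_cast (by omega)
      push_cast at this
      linarith
    · have h : (box v n).card ≤ (2 * n + 1) ^ d := by
        rw [box, card_subtype]
        refine (card_filter_le _ _).trans ?_
        rw [Fintype.card_piFinset]
        refine (prod_le_pow_card _ _ (2 * n + 1) fun j _ => ?_).trans (by simp)
        rw [Int.card_Icc]
        omega
      refine le_trans (by exact_mod_cast h : _ ≤ (((2 * n + 1) ^ d : ℕ) : ℝ)) ?_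
      rw [← mul_pow]
      push_cast
      gcongr
      have : (1 : ℝ) ≤ n := by exact_mod_cast hn
      linarith

end Pool.Agent.P.MP_a28080_pr
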