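import Pool.Agent.P.MP_a28080_pr.Lower

/-! Existence and uniqueness of the limit measure. -/

namespace Pool.Agent.P.MP_a28080_pr

open Finset Filter Topology MeasureTheory
open scoped ENNReal

lemma exists_unif {α X : Type*} [MeasurableSpace X] {s : Finset α} (hs : s.Nonempty) (h : α → X) :
    ∃ ν : ProbabilityMeasure X, ∀ A, MeasurableSet A →
      (ν : Measure X).real A = nf s (fun a => h a ∈ A) / s.card := by
  classical
  have h0 : (s.card : ℝ≥0∞) ≠ 0 := by exact_mod_cast hs.card_pos.ne'
  refine ⟨⟨(s.card : ℝ≥0∞)⁻¹ • ∑ a ∈ s, Measure.dirac (h a), ⟨?_⟩⟩, fun A hA => ?_⟩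
  · simp [ENNReal.inv_mul_cancel h0]
  · simp only [ProbabilityMeasure.coe_mk, measureReal_def, Measure.smul_apply,
      Measure.coe_finsetSum, Finset.sum_apply, Measure.dirac_apply' _ hA, smul_eq_mul,
      Set.indicator_apply, Pi.one_apply, sum_boole]
    rw [nf_eq, div_eq_inv_mul]
    simp

variable {V : Type}

/-- from configurations to graphs -/
def toG (ω : Sym2 V → Bool) : SimpleGraph V := SimpleGraph.fromEdgeSet {e | ω e = true}

open Classical in
/-- from graphs to configurations -/
noncomputable def ofG (G : SimpleGraph V) : Sym2 V → Bool := fun e => decide (e ∈ G.edgeSet)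

lemma toG_ofG (G : SimpleGraph V) : toG (ofG G) = G := by
  simp [toG, ofG]

lemma measurable_mem_edge (e : Sym2 V) : Measurable fun G : SimpleGraph V => e ∈ G.edgeSet :=
  (measurable_set_mem e).comp SimpleGraph.measurable_edgeSet

lemma measurable_ofG : Measurable (ofG : SimpleGraph V → _) := by
  refine measurable_pi_iff.mpr fun e => measurable_to_bool ?_
  have := (measurable_mem_edge e).setOf
  convert this using 1
  ext G
  simp [ofG]

lemma measurable_toG : Measurable (toG : _ → SimpleGraph V) := by
  refine SimpleGraph.measurable_fromEdgeSet.comp (measurable_set_iff.mpr fun e => ?_)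
  exact (Measurable.of_discrete (f := fun b : Bool => b = true)).comp (measurable_pi_apply e)

lemma clopen_edge (e : Sym2 V) : IsClopen {ω : Sym2 V → Bool | e ∈ (toG ω).edgeSet} := by
  have := (isClopen_discrete {b : Bool | b = true ∧ ¬ e.IsDiag}).preimage
    (continuous_apply (A := fun _ : Sym2 V => Bool) e)
  simpa [toG] using this

lemma clopen_cyl (A B : Finset (Sym2 V)) : IsClopen (toG ⁻¹' cyl A B) := by
  have := (isClopen_biInter_finset (s := A) fun e _ => clopen_edge e).inter
    (isClopen_biInter_finset (s := B) fun e _ => (clopen_edge e).compl)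
  convert this using 1
  ext ω
  simp [cyl]

lemma open_reach (u v : V) : IsOpen {ω : Sym2 V → Bool | (toG ω).Reachable u v} := by
  rw [isOpen_iff_mem_nhds]
  rintro ω ⟨p⟩
  induction p with
  | nil => simp
  | @cons a b c h p ih =>
    filter_upwards [ih, (clopen_edge s(a, b)).isOpen.mem_nhds h] with ω' h1 h2
    exact (SimpleGraph.Adj.reachable h2).trans h1

lemma measurableSet_cyl (A B : Finset (Sym2 V)) : MeasurableSet (cyl A B) := by
  have := (A.measurableSet_biInter fun e _ => (measurable_mem_edge e).setOf).inter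
    (B.measurableSet_biInter fun e _ => (measurable_mem_edge e).setOf.compl)
  convert this using 1
  ext ω
  simp [cyl]

lemma usf_unique {G : SimpleGraph V} {μ ν : Measure (SimpleGraph V)} (hμ : IsUSF G μ)
    (hν : IsUSF G ν) : μ = ν := by
  classical
  obtain ⟨i1, ⟨Λ, hΛ⟩, h1⟩ := hμ
  obtain ⟨i2, -, h2⟩ := hν
  refine ext_of_generate_finite {C | ∃ A B, C = cyl A B} (le_antisymm ?_ ?_) ?_ ?_ (by simp)
  · have : Measurable[MeasurableSpace.generateFrom {C | ∃ A B : Finset (Sym2 V), C = cyl A B}]
        (id : SimpleGraph V → SimpleGraph V) := by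
      refine SimpleGraph.measurable_iff_adj.mpr fun u v => measurable_to_prop ?_
      refine MeasurableSpace.measurableSet_generateFrom ⟨{s(u, v)}, ∅, ?_⟩
      ext T
      simp [cyl]
    exact fun s hs => this hs
  · refine MeasurableSpace.generateFrom_le ?_
    rintro _ ⟨A, B, rfl⟩
    exact measurableSet_cyl A B
  · rintro _ ⟨A, B, rfl⟩ _ ⟨A', B', rfl⟩ -
    refine ⟨A ∪ A', B ∪ B', ?_⟩
    ext T
    simp only [cyl, Set.mem_inter_iff, Set.mem_ofPred_eq, forall_mem_union]
    tauto
  · rintro _ ⟨A, B, rfl⟩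
    exact (measureReal_eq_measureReal_iff (measure_ne_top _ _) (measure_ne_top _ _)).mp
      (tendsto_nhds_unique (h1 Λ hΛ A B) (h2 Λ hΛ A B))

lemma countable_sym2 [Countable V] : Countable (Sym2 V) :=
  Function.Surjective.countable (f := fun p : V × V => s(p.1, p.2)) fun e =>
    Sym2.ind (fun a b => ⟨(a, b), rfl⟩) e

lemma measurableSet_le [Countable V] (G : SimpleGraph V) : MeasurableSet {F | F ≤ G} := by
  have := countable_sym2 (V := V)
  have e : {F | F ≤ G} = ⋂ e, {F : SimpleGraph V | e ∈ F.edgeSet → e ∈ G.edgeSet} := by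
    ext F
    simp only [Set.mem_ofPred_eq, Set.mem_iInter, ← SimpleGraph.edgeSet_subset_edgeSet]
    rfl
  rw [e]
  exact MeasurableSet.iInter fun e => ((measurable_mem_edge e).imp measurable_const).setOf

lemma usf_ae_le [Countable V] {G : SimpleGraph V} {μ : Measure (SimpleGraph V)}
    (hμ : IsUSF G μ) : ∀ᵐ F ∂μ, F ≤ G := by
  have := countable_sym2 (V := V)
  obtain ⟨i1, ⟨Λ, hΛ⟩, h1⟩ := hμ
  simp only [← SimpleGraph.edgeSet_subset_edgeSet, Set.subset_def]
  refine ae_all_iff.mpr fun e => ?_
  by_cases he : e ∈ G.edgeSet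
  · exact Eventually.of_forall fun _ _ => he
  have h2 := h1 Λ hΛ {e} ∅
  have h3 : ∀ n, ustProb G (Λ n) (cyl {e} ∅) = 0 := by
    intro n
    have : spTrees G (Λ n) ∩ cyl {e} ∅ = ∅ := by
      ext T
      simp only [Set.mem_inter_iff, Set.mem_empty_iff_false, iff_false]
      rintro ⟨h, h'⟩
      exact he (SimpleGraph.edgeSet_mono h.1 (h'.1 e (mem_singleton_self e)))
    simp [ustProb, this]
  simp only [h3] at h2
  have h4 := (measureReal_eq_zero_iff (measure_ne_top _ _)).mp
    (tendsto_nhds_unique h2 tendsto_const_nhds)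
  rw [ae_iff]
  convert h4 using 2
  ext T
  simp [cyl, he]

variable {d : ℕ} [NeZero d]

lemma closed_TB : IsClosed (toG ⁻¹' TB d) := by
  have R := fun u v : BCC d => (open_reach u v).isClosed_compl
  refine (R _ _).and ((R _ _).and ((R _ _).and ((R _ _).and ((R _ _).and ((R _ _).and ?_)))))
  simp only [Set.ofPred_forall]
  refine isClosed_iInter fun a => isClosed_iInter fun u => isClosed_iInter fun v =>
    isClosed_iInter fun b => isClosed_iInter fun _ => isClosed_iInter fun _ =>
    isClosed_iInter fun _ => isClosed_iInter fun _ => ?_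
  exact ((open_reach _ _).and ((open_reach _ _).and (open_reach _ _))).isClosed_compl

lemma measurableSet_TB : MeasurableSet (TB d) := by
  have := countable_sym2 (V := BCC d)
  have h := measurable_ofG (closed_TB (d := d)).measurableSet
  rwa [← Set.preimage_comp, show toG ∘ ofG = id from funext toG_ofG] at h

theorem exists_usf (hd : d = 20) : ∃ μ, IsUSF (bccG d) μ ∧ 0 < μ (TB d) := by
  have := countable_sym2 (V := BCC d)
  choose ν hν using fun n => exists_unif (wired_ne (box (0 : BCC d) n)) fun f => ofG (gr f)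
  obtain ⟨m, -, hm⟩ := isCompact_univ.ultrafilter_le_nhds ((hyperfilter ℕ).map ν) (by simp)
  have hm' : Tendsto ν (hyperfilter ℕ) (𝓝 m) := hm
  have hν' : ∀ n (E : Set (SimpleGraph (BCC d))), MeasurableSet E →
      (ν n : Measure _).real (toG ⁻¹' E) =
        nf (For (box 0 n) nbL) (fun f => gr f ∈ E) / (For (box (0 : BCC d) n) nbL).card := by
    intro n E hE
    rw [hν n _ (measurable_toG hE)]
    simp only [Set.mem_preimage, toG_ofG]
  refine ⟨(m : Measure _).map toG, ⟨Measure.isProbabilityMeasure_map measurable_toG.aemeasurable,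
    ⟨_, box_exh⟩, fun Λ hΛ A B => ?_⟩, ?_⟩
  · obtain ⟨l, hl⟩ := cyl_lim hd A B
    obtain ⟨ρ, hρ, hA⟩ := adm_free hΛ
    have h1 := NNReal.tendsto_coe.mpr
      (ProbabilityMeasure.tendsto_measure_of_isClopen_of_tendsto hm' (clopen_cyl A B))
    have h2 := (hl _ _ adm_wired).mono_left Nat.hyperfilter_le_atTop
    simp only [← hν' _ _ (measurableSet_cyl A B)] at h2
    have h3 : l = ((m : Measure _).map toG).real (cyl A B) := by
      rw [map_measureReal_apply measurable_toG (measurableSet_cyl A B)]
      exact tendsto_nhds_unique h2 h1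
    simp only [ustProb_eq _ (hρ _)]
    exact h3 ▸ hl _ _ hA
  · obtain ⟨c, hc, h⟩ := lower hd
    rw [Measure.map_apply measurable_toG measurableSet_TB]
    refine lt_of_lt_of_le (ENNReal.ofReal_pos.mpr hc) (le_trans ?_
      (ProbabilityMeasure.limsup_measure_closed_le_of_tendsto hm' closed_TB))
    refine le_limsup_of_frequently_le' (Eventually.frequently ?_)
    filter_upwards [h.filter_mono Nat.hyperfilter_le_atTop] with n hn
    rw [← hν' n _ measurableSet_TB] at hn
    exact ENNReal.ofReal_le_of_le_toReal hn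

end Pool.Agent.P.MP_a28080_pr
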