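import Pool.Agent.P.MP_a28080_pr.Surgery
import Pool.Agent.P.MP_a28080_pr.Green
import Pool.Agent.P.MP_a28080_pr.Tree
import Pool.Agent.P.MP_a28080_pr.Psi

/-! A uniform lower bound for the target event under the wired measures. -/

namespace Pool.Agent.P.MP_a28080_pr

open Finset Filter

variable {d : ℕ} [NeZero d]

/-- a mixed step -/
def e0 : Fin d → Bool := fun k => decide (k = 0)

/-- the target event -/
def TB (d : ℕ) [NeZero d] : Set (SimpleGraph (BCC d)) :=
  {F | ¬ F.Reachable (ell 0) (ell 1) ∧ ¬ F.Reachable (ell 0) (st e0) ∧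
    ¬ F.Reachable (st e0) (ell 1 + st e0) ∧ ¬ F.Reachable (ell 1 + st e0) (ell 1) ∧
    ¬ F.Reachable (st e0) (ell 1) ∧ ¬ F.Reachable (ell 1 + st e0) (ell 0) ∧
    ∀ a u v b, u ∈ nbL a → v ∈ nbL b → u ≠ ell 1 → v ≠ ell 0 →
      ¬ (F.Reachable (ell 0) a ∧ F.Reachable u v ∧ F.Reachable (ell 1) b)}

omit [NeZero d] in
lemma nb_of_near {u v : BCC d} (h : near 1 u v) (hne : u ≠ v) : v ∈ nbL u := by
  obtain ⟨x, hx, h'⟩ := near_step (n := 0) h hne
  exact near_zero.mp h' ▸ hx

lemma TB_sat {F : SimpleGraph (BCC d)} (h : F ∈ TB d) : Sat (compGraph (bccG d) F 1) psi := by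
  obtain ⟨h1, h2, h3, h4, h5, h6, h7⟩ := h
  have A : ∀ u v : BCC d, ¬ F.Reachable u v → near 1 u v →
      (compGraph (bccG d) F 1).Adj (F.connectedComponentMk u) (F.connectedComponentMk v) :=
    fun u v h h' => ⟨fun e => h (SimpleGraph.ConnectedComponent.exact e), u, v, rfl, rfl,
      dist_le_iff.mpr h'⟩
  rw [sat_psi]
  refine ⟨_, _, _, _, A _ _ h1 fun j => by simp [ell_val], A _ _ h2 fun j => ?_,
    A _ _ h3 fun j => by simp [ell_val], A _ _ h4 fun j => ?_,
    fun e => h5 (SimpleGraph.ConnectedComponent.exact e),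
    fun e => h6 (SimpleGraph.ConnectedComponent.exact e), ?_⟩
  · have := st_cases e0 j
    simp only [ell_val]; omega
  · have := st_cases e0 j
    simp only [ell_val, AddSubgroup.coe_add, Pi.add_apply]; omega
  · rintro w ⟨⟨n1, u, a, rfl, ha, hd1⟩, n2, v, b, hv, hb, hd2⟩
    refine h7 a u v b (nb_of_near (dist_le_iff.mp hd1).symm ?_)
      (nb_of_near (dist_le_iff.mp hd2).symm ?_) ?_ ?_
      ⟨SimpleGraph.ConnectedComponent.exact ha.symm, SimpleGraph.ConnectedComponent.exact hv.symm,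
        SimpleGraph.ConnectedComponent.exact hb.symm⟩
    · rintro rfl; exact n1 ha
    · rintro rfl; exact n2 (hv.symm.trans hb)
    · rintro rfl; exact n2 rfl
    · rintro rfl; exact n1 hv.symm

lemma meet_of_reach {V : Type*} {f : V → V} {u v : V} (h : (gr f).Reachable u v) :
    Meet f u v := by
  obtain ⟨p⟩ := h
  induction p with
  | nil => exact Meet.refl _ _
  | cons h p ih =>
    refine Meet.trans ?_ ih
    obtain ⟨-, h | h⟩ := gr_adj.mp h
    · exact h ▸ meet_step _ _
    · exact h ▸ (meet_step _ _).symm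

lemma surg_TB (hd : d = 20) {K : ℕ} {f : BCC d → BCC d} (hg : Good K f) {N : Finset (BCC d)}
    (hf : f ∈ For N nbL) : gr (surg K f) ∈ TB d := by
  have a1 : arm K false (fun _ : Fin d => false) (-1) = ell 0 := rfl
  have a2 : arm K true (fun _ : Fin d => false) (-1) = ell 1 := rfl
  have c0 : cf K true 0 = 1 := by have := cf_true K 0; omega
  have a3 : arm K false (e0 : Fin d → Bool) 0 = st e0 := by
    ext k
    rw [arm_false, st_val]
    cases e0 k
    · rfl
    · exact c0
  have a4 : arm K true (fun k : Fin d => !e0 k) 0 = ell 1 + st e0 := by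
    ext k
    simp only [arm_true, st_val, AddSubgroup.coe_add, Pi.add_apply, ell_val]
    cases e0 k
    · simp [c0]
    · rfl
  have v1 : valid K (fun _ : Fin d => false) (-1) := valid_c le_rfl (by omega)
  have v3 : valid K (e0 : Fin d → Bool) 0 :=
    ⟨⟨⟨1, by omega⟩, by simp [e0, Fin.ext_iff]⟩, Or.inl le_rfl, by omega⟩
  have v4 : valid K (fun k : Fin d => !e0 k) 0 := ⟨⟨0, by simp [e0]⟩, Or.inl le_rfl, by omega⟩
  refine ⟨fun h => ?_, fun h => ?_, fun h => ?_, fun h => ?_, fun h => ?_, fun h => ?_, ?_⟩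
  · cases (hg.arm_eq v1 v1 (s := false) (s' := true) (meet_of_reach h)).1
  · have := (hg.arm_eq v1 v3 (s := false) (s' := false) (a3 ▸ meet_of_reach h)).2
    simpa [e0] using congrFun this 0
  · cases (hg.arm_eq v3 v4 (s := false) (s' := true) (a3 ▸ a4 ▸ meet_of_reach h)).1
  · have := (hg.arm_eq v4 v1 (s := true) (s' := true) (a4 ▸ meet_of_reach h)).2
    simpa [e0, Fin.ext_iff] using congrFun this ⟨1, by omega⟩
  · cases (hg.arm_eq v3 v1 (s := false) (s' := true) (a3 ▸ meet_of_reach h)).1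
  · cases (hg.arm_eq v4 v1 (s := true) (s' := false) (a4 ▸ meet_of_reach h)).1
  · rintro a u v b hu hv n1 n2 ⟨r1, r2, r3⟩
    rcases hg.chain hf (meet_of_reach r1) hu (meet_of_reach r2) hv (meet_of_reach r3) with h | h
    · exact n1 h
    · exact n2 h

/-- index set of the arms -/
noncomputable def idx (d K : ℕ) : Finset (Bool × (Fin d → Bool) × ℤ) :=
  univ ×ˢ univ ×ˢ Icc (-1 : ℤ) (2 * K + 2)

omit [NeZero d] in
lemma card_idx (K : ℕ) : ((idx d K).card : ℝ) ≤ 8 * 2 ^ d * (K + 1) := by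
  have : (idx d K).card = 2 * (2 ^ d * (2 * K + 4)) := by
    simp only [idx, card_product, card_univ, Fintype.card_bool, Fintype.card_fun,
      Fintype.card_fin, Int.card_Icc]
    rw [show ((2 * K + 2 : ℤ) + 1 - -1).toNat = 2 * K + 4 by omega]
  rw [this]
  push_cast
  have : (0 : ℝ) ≤ 2 ^ d * K := by positivity
  nlinarith

lemma mem_idx {K : ℕ} (s : Bool) {ε : Fin d → Bool} {i : ℤ} (h : valid K ε i) :
    (s, ε, i) ∈ idx d K := by
  have := h.coord 0
  simp [idx, this.1, this.2.1]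

lemma bad_bound (hd : d = 20) : ∃ K : ℕ, ∀ N : Finset (BCC d),
    nf (For N nbL) (fun f => ¬ Good K f) ≤ 1 / 2 * (For N nbL).card := by
  obtain ⟨C, hC⟩ := Phi_tail hd
  obtain ⟨K, hK⟩ := exists_nat_ge (2 * (8 * 2 ^ d) ^ 2 * (3 * (2 ^ d) ^ 2 * |C|))
  refine ⟨K, fun N => ?_⟩
  have hZ : (0 : ℝ) ≤ (For N nbL).card := Nat.cast_nonneg _
  let q : Bool × (Fin d → Bool) × ℤ → BCC d := fun p => arm K p.1 p.2.1 p.2.2
  have h1 : ∀ p p', nf (For N nbL) (fun f => ¬ near K (q p) (q p') ∧ Chain nbL (q p) (q p') f) ≤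
      3 * (2 ^ d) ^ 2 * |C| / ((K : ℝ) + 1) ^ 3 * (For N nbL).card := by
    intro p p'
    by_cases h : near K (q p) (q p')
    · refine le_trans (le_of_eq ?_) (by positivity : (0 : ℝ) ≤ _)
      simp [nf, h]
    · refine (nf_mono fun f _ h => h.2).trans ((chain_lattice hd N _ _).trans ?_)
      refine mul_le_mul_of_nonneg_right ?_ hZ
      rw [mul_div_assoc, Phi_comm]
      refine mul_le_mul_of_nonneg_left ((hC K _ _ h).trans ?_) (by positivity)
      gcongr
      exact le_abs_self C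
  have h2 : nf (For N nbL) (fun f => ¬ Good K f) ≤ ∑ p ∈ idx d K, ∑ p' ∈ idx d K,
      nf (For N nbL) (fun f => ¬ near K (q p) (q p') ∧ Chain nbL (q p) (q p') f) := by
    refine le_trans (nf_mono fun f _ h => ?_) ((nf_exists_le _ _ _).trans
      (sum_le_sum fun p _ => nf_exists_le _ _ _))
    simp only [Good, not_forall, not_not] at h
    obtain ⟨s, ε, i, s', ε', i', v1, v2, h1, h2⟩ := h
    exact ⟨_, mem_idx s v1, _, mem_idx s' v2, h1, h2⟩
  refine h2.trans ((sum_le_sum fun p _ => sum_le_sum fun p' _ => h1 p p').trans ?_)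
  simp only [sum_const, nsmul_eq_mul, ← mul_assoc]
  refine mul_le_mul_of_nonneg_right ?_ hZ
  have h3 := card_idx (d := d) K
  have h4 : ((idx d K).card : ℝ) * (idx d K).card ≤ (8 * 2 ^ d * (K + 1)) ^ 2 := by
    rw [← sq]; gcongr
  refine (mul_le_mul_of_nonneg_right h4 (by positivity)).trans ?_
  generalize (3 * (2 ^ d) ^ 2 * |C| : ℝ) = B at hK ⊢
  generalize (8 * 2 ^ d : ℝ) = A at hK ⊢
  have e : (A * (K + 1)) ^ 2 * (B / ((K : ℝ) + 1) ^ 3) = A ^ 2 * B / (K + 1) := by
    field_simp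
  rw [e, div_le_iff₀ (by positivity)]
  linarith

lemma lower (hd : d = 20) : ∃ c : ℝ, 0 < c ∧ ∀ᶠ n in atTop,
    c ≤ nf (For (box (0 : BCC d) n) nbL) (fun f => gr f ∈ TB d) /
      (For (box (0 : BCC d) n) nbL).card := by
  classical
  obtain ⟨K, hK⟩ := bad_bound hd
  obtain ⟨S, hS⟩ : ∃ S : Finset (BCC d), ∀ s ε i, valid K ε i → arm K s ε i ∈ S :=
    ⟨(idx d K).image fun p => arm K p.1 p.2.1 p.2.2,
      fun s ε i h => mem_image.mpr ⟨_, mem_idx s h, rfl⟩⟩
  obtain ⟨M, hM⟩ : ∃ M, M = (Maps S nbL).card := ⟨_, rfl⟩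
  refine ⟨1 / (2 * (M + 1)), by positivity, ?_⟩
  filter_upwards [adm_wired.2.2.2 S] with n hn
  generalize box (0 : BCC d) n = N at hn
  have hZ : (0 : ℝ) < (For N nbL).card := by exact_mod_cast (wired_ne N).card_pos
  have h1 : ((For N nbL).filter (Good K)).card ≤
      M * ((For N nbL).filter fun f => gr f ∈ TB d).card := by
    rw [hM]
    refine card_le_mul_card_image_of_maps_to (f := surg K) (fun f hf => ?_) _ fun g _ => ?_
    · obtain ⟨hf, hg⟩ := mem_filter.mp hf
      exact mem_filter.mpr ⟨hg.mem_For hf fun s ε i h => (hn _ (hS s ε i h)).1, surg_TB hd hg hf⟩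
    · refine card_le_card_of_injOn (fun f v => if v ∈ S then f v else v) (fun f hf => ?_) ?_
      · have hf' := (mem_filter.mp (mem_filter.mp hf).1).1
        refine mem_Maps.mpr ⟨fun v hv => if_neg hv, fun v hv => ?_⟩
        simp only [if_pos hv]
        exact (mem_For.mp hf').2.1 v (hn v hv).1
      · intro f hf f' hf' h
        have e := (mem_filter.mp hf).2.trans (mem_filter.mp hf').2.symm
        funext v
        by_cases hv : v ∈ S
        · simpa [hv] using congrFun h v
        · have k : ∀ f, ¬ Red K f v := by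
            rintro f ⟨s, ε, i, h, -, rfl, -⟩
            exact hv (hS s ε i h)
          rw [← surg_not (k f), e, surg_not (k f')]
  have h2 : nf (For N nbL) (Good K) ≤
      M * nf (For N nbL) fun f => gr f ∈ TB d := by
    rw [nf_eq, nf_eq]; exact_mod_cast h1
  have h3 := nf_add_not (For N nbL) (fun _ => True) (Good K)
  simp only [true_and, nf_true] at h3
  have h4 := hK N
  have h5 := nf_nonneg (For N nbL) fun f => gr f ∈ TB d
  rw [div_le_div_iff₀ (by positivity) hZ]
  change nf (For N nbL) (Good K) + _ = _ at h3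
  nlinarith

end Pool.Agent.P.MP_a28080_pr
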