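import Pool.Agent.P.MP_a28080_pr.Harm

/-! Domain Markov property and the one step bound. -/

namespace Pool.Agent.P.MP_a28080_pr

open Finset

variable {V : Type*}

/-- same orbits from `A` -/
def Same (A : Finset V) (f g : V → V) : Prop := ∀ x ∈ A, ∀ n, f^[n] x = g^[n] x

/-- an event determined by the orbits from `A` -/
def Det (A : Finset V) (E : (V → V) → Prop) : Prop := ∀ f g, Same A f g → E f → E g

/-- the orbit of `u` reaches `w` staying before in `N` and off the orbits of `A` -/
def Hit (N A : Finset V) (u w : V) (f : V → V) : Prop :=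
  ∃ k, f^[k] u = w ∧ ∀ m < k, f^[m] u ∈ N ∧ ¬ ∃ x ∈ A, Anc f x (f^[m] u)

lemma iter_agree {f g : V → V} {S : V → Prop} (h : ∀ y, S y → f y = g y) (v : V) (k : ℕ)
    (hk : ∀ m < k, S (g^[m] v)) : f^[k] v = g^[k] v := by
  induction k with
  | zero => rfl
  | succ k ih =>
    rw [Function.iterate_succ_apply', Function.iterate_succ_apply',
      ih fun m hm => hk m (by omega), h _ (hk k (by omega))]

open Classical in
lemma card_le_of_fibers {α K : Type*} (s : Finset α) (κ : α → K) (P : α → Prop) (c : ℝ)
    (h : ∀ a ∈ s, ((s.filter fun b => κ b = κ a ∧ P b).card : ℝ) ≤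
      c * (s.filter fun b => κ b = κ a).card) : ((s.filter P).card : ℝ) ≤ c * s.card := by
  have e1 : s.card = ∑ k ∈ s.image κ, (s.filter fun b => κ b = k).card :=
    card_eq_sum_card_image κ s
  have e2 : (s.filter P).card = ∑ k ∈ s.image κ, ((s.filter P).filter fun b => κ b = k).card :=
    card_eq_sum_card_fiberwise fun a ha =>
      mem_coe.mpr (mem_image_of_mem κ (mem_filter.mp (mem_coe.mp ha)).1)
  rw [e1, e2]
  push_cast
  rw [mul_sum]
  refine sum_le_sum fun k hk => ?_
  obtain ⟨a, ha, rfl⟩ := mem_image.mp hk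
  have := h a ha
  rw [filter_filter]
  simpa only [and_comm] using this

/-- number of elements of `s` with `E` -/
noncomputable def nf {α : Type*} (s : Finset α) (E : α → Prop) : ℝ :=
  (@Finset.filter α E (fun _ => Classical.propDecidable _) s).card

lemma nf_eq {α : Type*} (s : Finset α) (E : α → Prop) [DecidablePred E] :
    nf s E = (s.filter E).card := by
  unfold nf; congr

lemma nf_nonneg {α : Type*} (s : Finset α) (E : α → Prop) : 0 ≤ nf s E := Nat.cast_nonneg _

lemma nf_mono {α : Type*} {s : Finset α} {E E' : α → Prop} (h : ∀ a ∈ s, E a → E' a) :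
    nf s E ≤ nf s E' := by
  classical
  rw [nf_eq, nf_eq]
  exact_mod_cast card_le_card (monotone_filter_right s h)

lemma nf_congr {α : Type*} {s : Finset α} {E E' : α → Prop} (h : ∀ a ∈ s, E a ↔ E' a) :
    nf s E = nf s E' :=
  le_antisymm (nf_mono fun a ha => (h a ha).1) (nf_mono fun a ha => (h a ha).2)

lemma nf_true {α : Type*} (s : Finset α) : nf s (fun _ => True) = s.card := by
  rw [nf_eq, filter_true]

lemma nf_le {α : Type*} (s : Finset α) (E : α → Prop) : nf s E ≤ s.card := by
  rw [← nf_true]; exact nf_mono fun _ _ _ => trivial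

lemma nf_add_not {α : Type*} (s : Finset α) (E E' : α → Prop) :
    nf s (fun a => E a ∧ E' a) + nf s (fun a => E a ∧ ¬ E' a) = nf s E := by
  classical
  rw [nf_eq, nf_eq, nf_eq, ← filter_filter, ← filter_filter]
  exact_mod_cast card_filter_add_card_filter_not (s := s.filter E) E'

lemma nf_or_le {α : Type*} (s : Finset α) (E E' : α → Prop) :
    nf s (fun a => E a ∨ E' a) ≤ nf s E + nf s E' := by
  classical
  rw [nf_eq, nf_eq, nf_eq, filter_or]
  exact_mod_cast card_union_le _ _

lemma nf_exists_le {α β : Type*} (s : Finset α) (W : Finset β) (E : β → α → Prop) :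
    nf s (fun a => ∃ b ∈ W, E b a) ≤ ∑ b ∈ W, nf s (E b) := by
  classical
  induction W using Finset.induction_on with
  | empty => simp [nf_eq]
  | insert b W hb ih =>
    rw [sum_insert hb]
    refine le_trans (nf_mono ?_) ((nf_or_le s _ _).trans (add_le_add le_rfl ih))
    simp

variable [DecidableEq V]

open Classical in
lemma fiber_bound {N : Finset V} {nb : V → Finset V} {A : Finset V} {u w : V} (hw : w ∈ A)
    (F : V → ℝ) (hF0 : ∀ x, 0 ≤ F x) (hFw : 1 ≤ F w) (hsup : ∀ v, 0 ≤ ∑ x ∈ nb v, (F v - F x))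
    {f₀ : V → V} (hf₀ : f₀ ∈ For N nb) :
    (((For N nb).filter fun f => Same A f f₀ ∧ Hit N A u w f).card : ℝ) ≤
      F u * ((For N nb).filter fun f => Same A f f₀).card := by
  obtain ⟨h1, h2, h3⟩ := mem_For.mp hf₀
  let T : Finset V := N.filter fun y => ∃ x ∈ A, Anc f₀ x y
  have hT : ∀ y, y ∈ T ↔ y ∈ N ∧ ∃ x ∈ A, Anc f₀ x y := fun y => mem_filter
  have hwT : w ∉ N \ T := by
    rw [mem_sdiff, hT]
    exact fun h => h.2 ⟨h.1, w, hw, 0, rfl⟩
  have c1 : ((For N nb).filter fun f => Same A f f₀ ∧ Hit N A u w f).card ≤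
      ((For (N \ T) nb).filter fun g => Anc g u w).card := by
    refine card_le_card_of_injOn (fun f y => if y ∈ T then y else f y) ?_ ?_
    · intro f hf
      simp only [coe_filter, Set.mem_ofPred_eq] at hf ⊢
      obtain ⟨hf, hs, k, hk, hk2⟩ := hf
      obtain ⟨g1, g2, g3⟩ := mem_For.mp hf
      refine ⟨mem_For.mpr ⟨?_, ?_, ?_⟩, k, ?_⟩
      · intro v hv
        split_ifs with h
        · rfl
        · exact g1 v fun h' => hv (mem_sdiff.mpr ⟨h', h⟩)
      · intro v hv
        rw [if_neg (mem_sdiff.mp hv).2]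
        exact g2 v (mem_sdiff.mp hv).1
      · intro v
        by_contra hc
        simp only [not_exists, not_not] at hc
        obtain ⟨n, hn⟩ := g3 v
        have := iter_agree (f := f) (g := fun y => if y ∈ T then y else f y)
          (S := fun y => y ∉ T) (fun y hy => by simp [hy]) v n
          fun m _ => (mem_sdiff.mp (hc m)).2
        exact hn (this ▸ (mem_sdiff.mp (hc n)).1)
      · rw [← hk]
        refine iter_agree (S := fun y => y ∉ T) (fun y hy => by simp [hy]) u k fun m hm hy => ?_
        obtain ⟨-, x, hx, n, hn⟩ := (hT _).mp hy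
        exact (hk2 m hm).2 ⟨x, hx, n, by rw [hs x hx n, hn]⟩
    · intro f hf g hg hfg
      simp only [coe_filter, Set.mem_ofPred_eq] at hf hg
      funext y
      by_cases hy : y ∈ T
      · obtain ⟨-, x, hx, n, hn⟩ := (hT _).mp hy
        have e1 := hf.2.1 x hx (n + 1)
        have e2 := hg.2.1 x hx (n + 1)
        rw [Function.iterate_succ_apply', hf.2.1 x hx n, hn] at e1
        rw [Function.iterate_succ_apply', hg.2.1 x hx n, hn] at e2
        rw [e1, e2]
      · simpa [hy] using congrFun hfg y
  have c2 : (For (N \ T) nb).card ≤ ((For N nb).filter fun f => Same A f f₀).card := by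
    refine card_le_card_of_injOn (fun g y => if y ∈ T then f₀ y else g y) ?_ ?_
    · intro g hg
      simp only [coe_filter, Set.mem_ofPred_eq, mem_coe] at hg ⊢
      obtain ⟨g1, g2, g3⟩ := mem_For.mp hg
      have hs : Same A (fun y => if y ∈ T then f₀ y else g y) f₀ := by
        intro x hx n
        refine iter_agree (S := fun y => ∃ x ∈ A, Anc f₀ x y) ?_ x n fun m _ => ⟨x, hx, m, rfl⟩
        intro y hy
        split_ifs with h
        · rfl
        · have hyN : y ∉ N := fun h' => h ((hT y).mpr ⟨h', hy⟩)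
          rw [h1 y hyN, g1 y fun h' => hyN (mem_sdiff.mp h').1]
      refine ⟨mem_For.mpr ⟨?_, ?_, ?_⟩, hs⟩
      · intro v hv
        rw [if_neg fun h => hv ((hT v).mp h).1]
        exact g1 v fun h' => hv (mem_sdiff.mp h').1
      · intro v hv
        split_ifs with h
        · exact h2 v hv
        · exact g2 v (mem_sdiff.mpr ⟨hv, h⟩)
      · intro v
        have hn := Nat.find_spec (g3 v)
        have e := iter_agree (f := fun y => if y ∈ T then f₀ y else g y) (g := g)
          (S := fun y => y ∉ T) (fun y hy => by simp [hy]) v (Nat.find (g3 v))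
          fun m hm => (mem_sdiff.mp (not_not.mp (Nat.find_min (g3 v) hm))).2
        by_cases hy : g^[Nat.find (g3 v)] v ∈ N
        · have hyT : g^[Nat.find (g3 v)] v ∈ T := by
            by_contra h; exact hn (mem_sdiff.mpr ⟨hy, h⟩)
          obtain ⟨-, x, hx, j, hj⟩ := (hT _).mp hyT
          obtain ⟨i, hi⟩ := h3 (f₀^[j] x)
          refine ⟨i + Nat.find (g3 v), ?_⟩
          rw [Function.iterate_add_apply, e, ← hj, ← hs x hx j, ← Function.iterate_add_apply,
            hs x hx, Function.iterate_add_apply]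
          exact hi
        · exact ⟨_, e ▸ hy⟩
    · intro f hf g hg hfg
      funext y
      by_cases hy : y ∈ T
      · have hy' : y ∉ N \ T := fun h => (mem_sdiff.mp h).2 hy
        rw [(mem_For.mp hf).1 y hy', (mem_For.mp hg).1 y hy']
      · simpa [hy] using congrFun hfg y
  have c3 := cnt_le (N \ T) nb hwT F hF0 hFw hsup u
  unfold cnt at c3
  calc _ ≤ (((For (N \ T) nb).filter fun g => Anc g u w).card : ℝ) := by exact_mod_cast c1
    _ ≤ F u * (For (N \ T) nb).card := by convert c3
    _ ≤ _ := mul_le_mul_of_nonneg_left (by exact_mod_cast c2) (hF0 u)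

open Classical in
/-- one step of the exploration -/
lemma step_bound {N : Finset V} {nb : V → Finset V} {A : Finset V} {u w : V} (hw : w ∈ A)
    (F : V → ℝ) (hF0 : ∀ x, 0 ≤ F x) (hFw : 1 ≤ F w) (hsup : ∀ v, 0 ≤ ∑ x ∈ nb v, (F v - F x))
    {E : (V → V) → Prop} (hE : Det A E) :
    nf (For N nb) (fun f => E f ∧ Hit N A u w f) ≤ F u * nf (For N nb) E := by
  rw [nf_eq, nf_eq, ← filter_filter]
  refine card_le_of_fibers _ (fun f => fun (x : V) (n : ℕ) => if x ∈ A then f^[n] x else x) _ _ ?_
  intro f₀ hf₀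
  obtain ⟨hf₀, hE₀⟩ := mem_filter.mp hf₀
  have hk : ∀ f : V → V, (E f ∧ (fun (x : V) (n : ℕ) => if x ∈ A then f^[n] x else x) =
      fun (x : V) (n : ℕ) => if x ∈ A then f₀^[n] x else x) ↔ Same A f f₀ := by
    intro f
    constructor
    · rintro ⟨-, h⟩ x hx n
      simpa [hx] using congrFun (congrFun h x) n
    · intro h
      refine ⟨hE f₀ f (fun x hx n => (h x hx n).symm) hE₀, ?_⟩
      funext x n
      split_ifs with hx
      · exact h x hx n
      · rfl
  have := fiber_bound hw F hF0 hFw hsup hf₀ (u := u)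
  simp only [filter_filter, ← and_assoc, hk]
  convert this

end Pool.Agent.P.MP_a28080_pr
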