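import Pool.Agent.P.MP_a28080_pr.Arms
import Pool.Agent.P.MP_a28080_pr.Pair

/-! The local surgery on a wired forest. -/

namespace Pool.Agent.P.MP_a28080_pr

open Finset

variable {d : ℕ}

open Classical in
/-- successor along the arms -/
noncomputable def nx (K : ℕ) (v : BCC d) : BCC d :=
  if h : ∃ p : Bool × (Fin d → Bool) × ℤ, valid K p.2.1 p.2.2 ∧ arm K p.1 p.2.1 p.2.2 = v then
    arm K h.choose.1 h.choose.2.1 (h.choose.2.2 + 1) else v

lemma nx_arm {K : ℕ} (s : Bool) {ε : Fin d → Bool} {i : ℤ} (h : valid K ε i) :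
    nx K (arm K s ε i) = arm K s ε (i + 1) := by
  have hex : ∃ p : Bool × (Fin d → Bool) × ℤ,
      valid K p.2.1 p.2.2 ∧ arm K p.1 p.2.1 p.2.2 = arm K s ε i := ⟨(s, ε, i), h, rfl⟩
  obtain ⟨h1, h2, h3⟩ := arm_inj hex.choose_spec.1 h hex.choose_spec.2
  rw [nx, dif_pos hex, h1, h2, h3]

/-- redirected vertices -/
def Red (K : ℕ) (f : BCC d → BCC d) (v : BCC d) : Prop :=
  ∃ s ε i, valid K ε i ∧ i < 2 * K + 2 ∧ arm K s ε i = v ∧ ¬ Anc f (arm K s ε (2 * K + 2)) v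

open Classical in
/-- the modified parent map -/
noncomputable def surg (K : ℕ) (f : BCC d → BCC d) : BCC d → BCC d :=
  fun v => if Red K f v then nx K v else f v

/-- no chains between distant points of the arms -/
def Good (K : ℕ) (f : BCC d → BCC d) : Prop :=
  ∀ s ε i s' ε' i', valid K ε i → valid K ε' i' → ¬ near K (arm K s ε i) (arm K s' ε' i') →
    ¬ Chain nbL (arm K s ε i) (arm K s' ε' i') f

variable {K : ℕ} {f : BCC d → BCC d}

lemma surg_not {v : BCC d} (h : ¬ Red K f v) : surg K f v = f v := if_neg h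

lemma surg_red {s : Bool} {ε : Fin d → Bool} {i : ℤ} (h : valid K ε i)
    (hr : Red K f (arm K s ε i)) : surg K f (arm K s ε i) = arm K s ε (i + 1) := by
  rw [surg, if_pos hr, nx_arm s h]

lemma Good.anchor (hg : Good K f) {s s' : Bool} {ε ε' : Fin d → Bool} {i' : ℤ}
    (h : valid K ε (2 * K + 2)) (h' : valid K ε' i')
    (m : Meet f (arm K s ε (2 * K + 2)) (arm K s' ε' i')) : s = s' ∧ ε = ε' ∧ K + 1 < i' :=
  anchor_far h h' (by_contra fun hn => hg _ _ _ _ _ _ h h' hn (Or.inl m))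

lemma Good.red (hg : Good K f) (s : Bool) {ε : Fin d → Bool} {i : ℤ} (h : valid K ε i)
    (hi : i ≤ K + 1) : Red K f (arm K s ε i) := by
  refine ⟨s, ε, i, h, by omega, rfl, ?_⟩
  rintro ⟨n, hn⟩
  have := (hg.anchor h.top h ⟨n, 0, hn⟩).2.2
  omega

lemma Good.orbit (hg : Good K f) (s : Bool) {ε : Fin d → Bool} (h : valid K ε (2 * K + 2))
    (n : ℕ) : (surg K f)^[n] (arm K s ε (2 * K + 2)) = f^[n] (arm K s ε (2 * K + 2)) := by
  refine iter_agree (S := fun y => ¬ Red K f y) (fun y hy => surg_not hy) _ n fun m _ => ?_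
  rintro ⟨s', ε', i', h', -, e, hn⟩
  obtain ⟨rfl, rfl, -⟩ := hg.anchor h h' ⟨m, 0, e.symm⟩
  exact hn ⟨m, rfl⟩

lemma Good.meet_anchor (hg : Good K f) (s : Bool) {ε : Fin d → Bool} {i : ℤ} (h : valid K ε i) :
    Meet (surg K f) (arm K s ε i) (arm K s ε (2 * K + 2)) := by
  obtain ⟨n, hn⟩ : ∃ n : ℕ, i + n = 2 * K + 2 := ⟨(2 * K + 2 - i).toNat, by have := h.2.2; omega⟩
  induction n generalizing i with
  | zero => rw [← hn]; simpa using Meet.refl _ _
  | succ n ih =>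
    by_cases hr : Red K f (arm K s ε i)
    · refine (meet_step _ _).trans ?_
      rw [surg_red h hr]
      exact ih (h.succ (by omega)) (by omega)
    · have : Anc f (arm K s ε (2 * K + 2)) (arm K s ε i) :=
        by_contra fun hn' => hr ⟨s, ε, i, h, by omega, rfl, hn'⟩
      obtain ⟨m, hm⟩ := this
      exact ⟨0, m, by rw [hg.orbit s h.top, hm]; rfl⟩

lemma Good.anchor_eq (hg : Good K f) {s s' : Bool} {ε ε' : Fin d → Bool}
    (h : valid K ε (2 * K + 2)) (h' : valid K ε' (2 * K + 2))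
    (m : Meet (surg K f) (arm K s ε (2 * K + 2)) (arm K s' ε' (2 * K + 2))) :
    s = s' ∧ ε = ε' := by
  obtain ⟨a, b, e⟩ := m
  rw [hg.orbit s h, hg.orbit s' h'] at e
  have := hg.anchor h h' ⟨a, b, e⟩
  exact ⟨this.1, this.2.1⟩

lemma Good.arm_eq (hg : Good K f) {s s' : Bool} {ε ε' : Fin d → Bool} {i i' : ℤ}
    (h : valid K ε i) (h' : valid K ε' i')
    (m : Meet (surg K f) (arm K s ε i) (arm K s' ε' i')) : s = s' ∧ ε = ε' :=
  hg.anchor_eq h.top h'.top ((hg.meet_anchor s h).symm.trans (m.trans (hg.meet_anchor s' h')))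

lemma first_hit (K : ℕ) (f : BCC d → BCC d) (v : BCC d) :
    (∀ n, (surg K f)^[n] v = f^[n] v) ∨ ∃ n s ε i, valid K ε i ∧ f^[n] v = arm K s ε i ∧
      (surg K f)^[n] v = arm K s ε i ∧ ∀ m < n, ¬ Red K f (f^[m] v) := by
  classical
  by_cases h : ∃ n, Red K f (f^[n] v)
  · obtain ⟨s, ε, i, h1, -, h2, -⟩ := Nat.find_spec h
    refine Or.inr ⟨_, s, ε, i, h1, h2.symm, ?_, fun m hm => Nat.find_min h hm⟩
    rw [h2]
    exact iter_agree (S := fun y => ¬ Red K f y) (fun y hy => surg_not hy) _ _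
      fun m hm => Nat.find_min h hm
  · exact Or.inl fun n => iter_agree (S := fun y => ¬ Red K f y) (fun y hy => surg_not hy) _ _
      fun m _ hm => h ⟨m, hm⟩

lemma Good.meet_arm (hg : Good K f) {s : Bool} {ε : Fin d → Bool} (h : valid K ε (2 * K + 2))
    {v : BCC d} (m : Meet (surg K f) v (arm K s ε (2 * K + 2))) :
    ∃ i, valid K ε i ∧ Meet f (arm K s ε i) v := by
  rcases first_hit K f v with h1 | ⟨n, s', ε', i, h1, h2, h3, -⟩
  · obtain ⟨a, b, e⟩ := m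
    rw [h1, hg.orbit s h] at e
    exact ⟨_, h, b, a, e.symm⟩
  · obtain ⟨rfl, rfl⟩ := hg.arm_eq h1 h ((h3 ▸ meet_iter _ v n).symm.trans m)
    exact ⟨i, h1, 0, n, h2.symm⟩

lemma Good.meet_cases (hg : Good K f) {u v : BCC d} (m : Meet (surg K f) u v) :
    Meet f u v ∨ ∃ s ε, valid K ε (2 * K + 2) ∧ Meet (surg K f) u (arm K s ε (2 * K + 2)) := by
  rcases first_hit K f u with h1 | ⟨n, s, ε, i, h1, -, h3, -⟩
  · rcases first_hit K f v with h2 | ⟨n, s, ε, i, h1, -, h3, -⟩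
    · obtain ⟨a, b, e⟩ := m
      rw [h1, h2] at e
      exact Or.inl ⟨a, b, e⟩
    · exact Or.inr ⟨s, ε, h1.top, m.trans ((h3 ▸ meet_iter _ v n).trans (hg.meet_anchor s h1))⟩
  · exact Or.inr ⟨s, ε, h1.top, (h3 ▸ meet_iter _ u n).trans (hg.meet_anchor s h1)⟩

lemma Good.mem_For (hg : Good K f) {N : Finset (BCC d)} (hf : f ∈ For N nbL)
    (hN : ∀ s ε i, valid K ε i → arm K s ε i ∈ N) : surg K f ∈ For N nbL := by
  obtain ⟨h1, h2, h3⟩ := MP_a28080_pr.mem_For.mp hf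
  have k1 : ∀ v, v ∉ N → surg K f v = v := by
    intro v hv
    rw [surg_not, h1 v hv]
    rintro ⟨s, ε, i, h, -, rfl, -⟩
    exact hv (hN s ε i h)
  refine MP_a28080_pr.mem_For.mpr ⟨k1, fun v hv => ?_, fun v => ?_⟩
  · by_cases hr : Red K f v
    · obtain ⟨s, ε, i, h, -, rfl, -⟩ := id hr
      rw [surg_red h hr]
      exact arm_nb K s ε i
    · rw [surg_not hr]; exact h2 v hv
  · rcases first_hit K f v with h4 | ⟨n, s, ε, i, h4, -, h5, -⟩
    · obtain ⟨n, hn⟩ := h3 v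
      exact ⟨n, (h4 n).symm ▸ hn⟩
    · obtain ⟨a, b, e⟩ := (h5 ▸ meet_iter _ v n).trans (hg.meet_anchor s h4)
      obtain ⟨c, hc⟩ := h3 (arm K s ε (2 * K + 2))
      rw [← hg.orbit s h4.top] at hc
      refine ⟨c + a, ?_⟩
      rw [Function.iterate_add_apply, e, ← Function.iterate_add_apply, add_comm,
        Function.iterate_add_apply, iter_fix k1 hc]
      exact hc

variable [NeZero d]

lemma Good.cross (hg : Good K f) {s : Bool} {ε : Fin d → Bool} (h : valid K ε (2 * K + 2))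
    {v b : BCC d} (m : Meet (surg K f) v (arm K s ε (2 * K + 2))) (hv : v ∈ nbL b) {i : ℤ}
    (h1 : K < i) (h2 : i ≤ 2 * K + 2) (m' : Meet f (arm K (!s) (fun _ => false) i) b) : False := by
  obtain ⟨j, hj, m2⟩ := hg.meet_arm h m
  exact hg _ _ _ _ _ _ hj (valid_c (by omega) h2) (cross_far hj h1)
    (Or.inr (Or.inl ⟨v, b, nbL_symm _ _ hv, m2, m'.symm⟩))

lemma Good.half (hg : Good K f) {N : Finset (BCC d)} (hf : f ∈ For N nbL) {s : Bool}
    {a u : BCC d} (m : Meet (surg K f) (arm K s (fun _ => false) (-1)) a) (hu : u ∈ nbL a) :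
    (a = arm K s (fun _ => false) (-1) ∧ u = arm K (!s) (fun _ => false) (-1)) ∨
      (∃ ε, valid K ε (2 * K + 2) ∧ Meet (surg K f) u (arm K s ε (2 * K + 2))) ∨
      ∃ i : ℤ, K < i ∧ i ≤ 2 * K + 2 ∧ Meet f (arm K s (fun _ => false) i) a := by
  have v0 : valid K (fun _ : Fin d => false) (-1) := valid_c le_rfl (by omega)
  rcases first_hit K f a with h1 | ⟨n, s', ε', i, h1, h2, h3, h4⟩
  · obtain ⟨x, y, e⟩ := m.symm.trans (hg.meet_anchor s v0)
    rw [h1, hg.orbit s v0.top] at e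
    exact Or.inr (Or.inr ⟨_, by omega, le_rfl, y, x, e.symm⟩)
  obtain ⟨rfl, rfl⟩ := hg.arm_eq v0 h1 (m.trans (h3 ▸ meet_iter _ a n))
  have hi := (h1.coord 0).1
  by_cases hK : (K : ℤ) < i
  · exact Or.inr (Or.inr ⟨i, hK, h1.2.2, 0, n, h2.symm⟩)
  cases n with
  | zero =>
    obtain rfl : a = _ := h2
    rcases nb_central hi (by omega) hu with ⟨ε, i', k1, -, rfl⟩ | ⟨rfl, rfl⟩
    · exact Or.inr (Or.inl ⟨ε, k1.top, hg.meet_anchor s k1⟩)
    · exact Or.inl ⟨rfl, rfl⟩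
  | succ n =>
    exfalso
    refine h4 n (Nat.lt_succ_self n) ?_
    rw [Function.iterate_succ_apply'] at h2
    by_cases hN : f^[n] a ∈ N
    · have := (MP_a28080_pr.mem_For.mp hf).2.1 _ hN
      rw [h2] at this
      rcases nb_central hi (by omega) (nbL_symm _ _ this) with ⟨ε, i', k1, k2, e⟩ | ⟨-, e⟩
      · exact e ▸ hg.red s k1 k2
      · exact e ▸ hg.red (!s) v0 (by omega)
    · rw [(MP_a28080_pr.mem_For.mp hf).1 _ hN] at h2
      exact h2 ▸ hg.red s h1 (by omega)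

lemma Good.chain (hg : Good K f) {N : Finset (BCC d)} (hf : f ∈ For N nbL) {a u v b : BCC d}
    (m1 : Meet (surg K f) (arm K false (fun _ => false) (-1)) a) (hu : u ∈ nbL a)
    (m2 : Meet (surg K f) u v) (hv : v ∈ nbL b)
    (m3 : Meet (surg K f) (arm K true (fun _ => false) (-1)) b) :
    u = arm K true (fun _ => false) (-1) ∨ v = arm K false (fun _ => false) (-1) := by
  rcases hg.half hf m1 hu with h | ⟨ε, k1, k2⟩ | ⟨i, k1, k2, k3⟩
  · exact Or.inl h.2
  · rcases hg.half hf m3 hv with h | ⟨ε', l1, l2⟩ | ⟨i', l1, l2, l3⟩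
    · exact Or.inr h.2
    · cases (hg.anchor_eq k1 l1 (k2.symm.trans (m2.trans l2))).1
    · exact (hg.cross k1 (m2.symm.trans k2) hv l1 l2 l3).elim
  · rcases hg.half hf m3 hv with h | ⟨ε', l1, l2⟩ | ⟨i', l1, l2, l3⟩
    · exact Or.inr h.2
    · exact (hg.cross l1 (m2.trans l2) hu k1 k2 k3).elim
    · rcases hg.meet_cases m2 with h | ⟨s, ε, h1, h2⟩
      · exact (hg _ _ _ _ _ _ (valid_c (by omega) k2) (valid_c (by omega) l2)
          (cross_far (valid_c (by omega) k2) l1)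
          (Or.inr (Or.inr ⟨a, u, hu, b, v, hv, k3, h, l3.symm⟩))).elim
      · cases s
        · exact (hg.cross h1 (m2.symm.trans h2) hv l1 l2 l3).elim
        · exact (hg.cross h1 h2 hu k1 k2 k3).elim

end Pool.Agent.P.MP_a28080_pr
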